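import Mathlib

set_option autoImplicit false
open Set Metric

namespace Pool.Agent.H931Z.Band

/-- a countable compact set is covered by finitely many disjoint open sets refining a cover -/
theorem disjoint_cover {X : Type} [MetricSpace X] {ι : Type} (α : ι → Set X)
    (hα : ∀ i, IsOpen (α i)) (K : Set X) (hK : IsCompact K) (hc : K.Countable)
    (hcov : K ⊆ ⋃ i, α i) :
    ∃ (m : ℕ) (U : Fin m → Set X), (∀ l, IsOpen (U l)) ∧ (∀ l, ∃ i, U l ⊆ α i) ∧
      K ⊆ ⋃ l, U l ∧ ∀ l l' x, x ∈ U l → x ∈ U l' → l = l' := by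
  have h1 : ∀ x : K, ∃ ρ : ℝ, 0 < ρ ∧ (∃ i, ball (x : X) ρ ⊆ α i) ∧
      ∀ y ∈ K, dist y (x : X) ≠ ρ := by
    intro x
    obtain ⟨i, hi⟩ := mem_iUnion.1 (hcov x.2)
    obtain ⟨ε, hε, hb⟩ := Metric.isOpen_iff.1 (hα i) x hi
    have hcount : ((fun y => dist y (x : X)) '' K).Countable := hc.image _
    have hne : ¬ (Ioo (0 : ℝ) ε ⊆ (fun y => dist y (x : X)) '' K) := by
      intro hs
      have := hcount.mono hs
      rw [← Cardinal.le_aleph0_iff_set_countable, Cardinal.mk_Ioo_real hε] at this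
      exact absurd this (not_le.2 Cardinal.aleph0_lt_continuum)
    obtain ⟨ρ, hρ, hρ'⟩ := not_subset.1 hne
    refine ⟨ρ, hρ.1, ⟨i, (ball_subset_ball hρ.2.le).trans hb⟩, ?_⟩
    intro y hy he
    exact hρ' ⟨y, hy, he⟩
  choose ρ hρ hρα hρK using h1
  obtain ⟨T, hT⟩ := hK.elim_finite_subcover (fun x : K => ball (x : X) (ρ x))
    (fun x => isOpen_ball) (fun x hx => mem_iUnion.2 ⟨⟨x, hx⟩, mem_ball_self (hρ _)⟩)
  let e : Fin T.card → K := fun l => (T.equivFin.symm l : K)
  refine ⟨T.card, fun l => ball (e l : X) (ρ (e l)) \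
    ⋃ l' ∈ {l' : Fin T.card | l' < l}, closedBall (e l' : X) (ρ (e l')), ?_, ?_, ?_, ?_⟩
  · intro l
    exact isOpen_ball.sdiff ((toFinite _).isClosed_biUnion fun _ _ => isClosed_closedBall)
  · intro l
    obtain ⟨i, hi⟩ := hρα (e l)
    exact ⟨i, sdiff_subset.trans hi⟩
  · intro x hx
    classical
    have hex : ∃ l : Fin T.card, x ∈ ball (e l : X) (ρ (e l)) := by
      have := hT hx
      simp only [mem_iUnion] at this
      obtain ⟨y, hy, hxy⟩ := this
      refine ⟨T.equivFin ⟨y, hy⟩, ?_⟩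
      simpa [e] using hxy
    obtain ⟨l, hl, hmin⟩ := (wellFounded_lt (α := Fin T.card)).has_min
      {l | x ∈ ball (e l : X) (ρ (e l))} hex
    refine mem_iUnion.2 ⟨l, hl, ?_⟩
    simp only [mem_iUnion, not_exists]
    intro l' hl' hx'
    apply hmin l' _ hl'
    exact lt_of_le_of_ne (mem_closedBall.1 hx') (hρK _ x hx)
  · intro l l' x h h'
    by_contra hne
    rcases lt_or_gt_of_ne hne with hlt | hlt
    · exact h'.2 (mem_biUnion (show l ∈ {l'' : Fin T.card | l'' < l'} from hlt)
        (ball_subset_closedBall h.1))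
    · exact h.2 (mem_biUnion (show l' ∈ {l'' : Fin T.card | l'' < l} from hlt)
        (ball_subset_closedBall h'.1))

/-- a compact metric space with a real continuous function with countable fibres has covering
dimension at most one -/
theorem dim_le_one {X : Type} [MetricSpace X] [CompactSpace X] (g : X → ℝ) (hg : Continuous g)
    (hf : ∀ t, (g ⁻¹' {t}).Countable) {ι : Type} (α : ι → Set X) (hα : ∀ i, IsOpen (α i))
    (hcov : (⋃ i, α i) = univ) :
    ∃ (m : ℕ) (γ : Fin m → Set X), (∀ j, IsOpen (γ j)) ∧ (⋃ j, γ j) = univ ∧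
      (∀ j, ∃ i, γ j ⊆ α i) ∧ ∀ x, {j : Fin m | x ∈ γ j}.ncard ≤ 2 := by
  classical
  have h1 := fun t : ℝ => disjoint_cover α hα (g ⁻¹' {t})
    ((isClosed_singleton.preimage hg).isCompact) (hf t) (by rw [hcov]; exact subset_univ _)
  choose m U hUo hUα hUc hUd using h1
  have hcl : IsClosedMap g := hg.isClosedMap
  let V : ℝ → Set ℝ := fun t => (g '' (⋃ l, U t l)ᶜ)ᶜ
  have hVo : ∀ t, IsOpen (V t) := fun t =>
    (hcl _ (isOpen_iUnion (hUo t)).isClosed_compl).isOpen_compl
  have hVt : ∀ t, t ∈ V t := by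
    rintro t ⟨x, hx, hxt⟩
    exact hx (hUc t hxt)
  have hR : IsCompact (range g) := isCompact_range hg
  obtain ⟨δ, hδ, hL⟩ := lebesgue_number_lemma_of_metric hR hVo
    (fun y _ => mem_iUnion.2 ⟨y, hVt y⟩)
  set η := δ / 2 with hη
  have hη0 : 0 < η := by positivity
  -- for every integer j a parameter t j
  have h2 : ∀ j : ℤ, ∃ t : ℝ, ∀ x, |g x - j * η| < η → x ∈ ⋃ l, U t l := by
    intro j
    by_cases hj : ∃ x, |g x - j * η| < η
    · obtain ⟨x0, hx0⟩ := hj
      obtain ⟨t, ht⟩ := hL (g x0) ⟨x0, rfl⟩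
      refine ⟨t, fun x hx => ?_⟩
      have : g x ∈ V t := by
        apply ht
        rw [mem_ball, Real.dist_eq]
        rw [abs_lt] at *
        constructor <;> linarith [hx.1, hx.2, hx0.1, hx0.2]
      by_contra hn
      exact this ⟨x, hn, rfl⟩
    · exact ⟨0, fun x hx => absurd ⟨x, hx⟩ hj⟩
  choose τ hτ using h2
  obtain ⟨M, hM⟩ := hR.isBounded.exists_norm_le
  obtain ⟨N, hN⟩ := exists_nat_ge (M / η + 1)
  let J := Σ j : Finset.Icc (-(N : ℤ)) N, Fin (m (τ j))
  let e := Fintype.equivFin J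
  let G : J → Set X := fun q => {x | |g x - (q.1 : ℤ) * η| < η} ∩ U (τ q.1) q.2
  refine ⟨Fintype.card J, fun j => G (e.symm j), ?_, ?_, ?_, ?_⟩
  · intro j
    refine IsOpen.inter ?_ (hUo _ _)
    exact isOpen_lt (by fun_prop) continuous_const
  · rw [eq_univ_iff_forall]
    intro x
    have hx : |g x| ≤ M := hM _ ⟨x, rfl⟩
    set j : ℤ := ⌊g x / η⌋ with hj
    have hj1 : (j : ℝ) ≤ g x / η := Int.floor_le _
    have hj2 : g x / η < j + 1 := Int.lt_floor_add_one _
    have hb : |g x / η| ≤ M / η := by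
      rw [abs_div, abs_of_pos hη0]; exact div_le_div_of_nonneg_right hx hη0.le
    rw [abs_le] at hb
    have hjm : j ∈ Finset.Icc (-(N : ℤ)) N := by
      rw [Finset.mem_Icc]
      constructor
      · have : (-(N : ℝ)) ≤ j := by linarith [hb.1]
        exact_mod_cast this
      · have : (j : ℝ) ≤ N := by linarith [hb.2]
        exact_mod_cast this
    have hxj : |g x - j * η| < η := by
      rw [le_div_iff₀ hη0] at hj1
      rw [div_lt_iff₀ hη0] at hj2
      rw [abs_lt]; constructor <;> linarith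
    obtain ⟨l, hl⟩ := mem_iUnion.1 (hτ j x hxj)
    refine mem_iUnion.2 ⟨e ⟨⟨j, hjm⟩, l⟩, ?_⟩
    simp only [Equiv.symm_apply_apply]
    exact ⟨hxj, hl⟩
  · intro j
    obtain ⟨i, hi⟩ := hUα (τ (e.symm j).1) (e.symm j).2
    exact ⟨i, inter_subset_right.trans hi⟩
  · intro x
    set j0 : ℤ := ⌊g x / η⌋ with hj
    have hj1 : (j0 : ℝ) ≤ g x / η := Int.floor_le _
    have hj2 : g x / η < j0 + 1 := Int.lt_floor_add_one _
    rw [le_div_iff₀ hη0] at hj1
    rw [div_lt_iff₀ hη0] at hj2
    have hle : {j : Fin (Fintype.card J) | x ∈ G (e.symm j)}.ncard ≤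
        ({j0, j0 + 1} : Set ℤ).ncard := by
      refine ncard_le_ncard_of_injOn (fun j => ((e.symm j).1 : ℤ)) ?_ ?_ (toFinite _)
      · intro j hj
        have h := hj.1
        simp only [mem_ofPred_eq, abs_lt] at h
        set q : ℤ := ((e.symm j).1 : ℤ)
        have a1 : (j0 : ℝ) - 1 < q := by
          by_contra hn
          push Not at hn
          nlinarith [h.1, h.2]
        have a2 : (q : ℝ) < j0 + 2 := by
          by_contra hn
          push Not at hn
          nlinarith [h.1, h.2]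
        have a1' : j0 - 1 < q := by exact_mod_cast a1
        have a2' : q < j0 + 2 := by exact_mod_cast a2
        simp only [mem_insert_iff, mem_singleton_iff]
        omega
      · intro j hj j' hj' hjj
        apply e.symm.injective
        have h := hj.2
        have h' := hj'.2
        replace hjj : ((e.symm j).1 : ℤ) = ((e.symm j').1 : ℤ) := hjj
        clear hj hj'
        generalize e.symm j = q at *
        generalize e.symm j' = q' at *
        obtain ⟨a, l⟩ := q
        obtain ⟨a', l'⟩ := q'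
        have : a = a' := Subtype.ext hjj
        subst this
        rw [hUd _ l l' x h h']
    refine hle.trans ?_
    exact (ncard_insert_le _ _).trans (by simp)

end Pool.Agent.H931Z.Band
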