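import Mathlib

set_option autoImplicit false
open scoped FourierTransform
open MeasureTheory Set

namespace Pool.Agent.H931Z.Band

/-- a smooth bump at c of radius r, as a Schwartz function -/
theorem exists_bump (c r : ℝ) (hr : 0 < r) :
    ∃ φ : SchwartzMap ℝ ℂ, HasCompactSupport (⇑φ) ∧ tsupport (⇑φ) ⊆ Metric.closedBall c r ∧
      φ c = 1 := by
  let b : ContDiffBump c := ⟨r / 2, r, by positivity, by linarith⟩
  have h1 : HasCompactSupport (fun x : ℝ => ((b x : ℝ) : ℂ)) :=
    b.hasCompactSupport.comp_left (g := fun y : ℝ => (y : ℂ)) (by simp)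
  have h2 : ContDiff ℝ (⊤ : ℕ∞) (fun x : ℝ => ((b x : ℝ) : ℂ)) :=
    Complex.ofRealCLM.contDiff.comp b.contDiff
  refine ⟨h1.toSchwartzMap h2, h1, ?_, ?_⟩
  · have : tsupport (fun x : ℝ => ((b x : ℝ) : ℂ)) ⊆ tsupport b := by
      apply closure_mono
      intro x hx
      simp only [Function.mem_support, ne_eq, Complex.ofReal_eq_zero] at hx
      exact hx
    refine this.trans ?_
    rw [b.tsupport_eq]
  · show ((b c : ℝ) : ℂ) = 1
    rw [b.one_of_mem_closedBall (Metric.mem_closedBall_self (by positivity))]
    simp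

theorem integral_char_fourier (φ : SchwartzMap ℝ ℂ) (p : ℝ) (k : ℤ) :
    ∫ t : ℝ, (fourier k (t : AddCircle p)) * 𝓕 (⇑φ : ℝ → ℂ) t = φ (k / p) := by
  have hi : Integrable (𝓕 (⇑φ : ℝ → ℂ)) := (𝓕 φ : SchwartzMap ℝ ℂ).integrable
  have := φ.continuous.fourierInv_fourier_eq φ.integrable hi
  have h2 := congrFun this (k / p)
  rw [← h2, Real.fourierInv_eq']
  congr 1
  ext t
  rw [fourier_coe_apply, smul_eq_mul]
  congr 2
  simp
  ring

/-- a continuous function on the circle of length p, all of whose translates annihilate the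
Fourier transforms of test functions supported off [-a,a], with 1/p > a, is constant -/
theorem const_of_band (p a : ℝ) [hp : Fact (0 < p)] (ha : a < 1 / p) (H : C(AddCircle p, ℂ))
    (hH : ∀ s : ℝ, ∀ φ : SchwartzMap ℝ ℂ, HasCompactSupport (⇑φ) →
      Disjoint (tsupport (⇑φ)) (Set.Icc (-a) a) →
      ∫ t : ℝ, H ((t + s : ℝ) : AddCircle p) * 𝓕 (⇑φ : ℝ → ℂ) t = 0) (x y : AddCircle p) :
    H x = H y := by
  have hp0 := hp.out
  have hc : ∀ k : ℤ, k ≠ 0 → fourierCoeff H k = 0 := by
    intro k hk
    obtain ⟨φ, h1, h2, h3⟩ := exists_bump (k / p) ((1 / p - a) / 2) (by linarith)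
    have hk1 : (1 : ℝ) ≤ |(k : ℝ)| := by
      have := Int.one_le_abs hk
      exact_mod_cast this
    have hd : Disjoint (tsupport (⇑φ)) (Set.Icc (-a) a) := by
      rw [Set.disjoint_left]
      intro u hu hua
      have h4 := h2 hu
      rw [Metric.mem_closedBall, Real.dist_eq] at h4
      have h5 : |u| ≤ a := abs_le.2 hua
      have h6 : 1 / p ≤ |(k : ℝ) / p| := by
        rw [abs_div, abs_of_pos hp0]
        exact div_le_div_of_nonneg_right hk1 hp0.le
      have h7 : |(k : ℝ) / p| ≤ |u| + |u - k / p| := by
        have := abs_sub (u) (u - k / p)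
        simpa using this
      linarith
    have hi : Integrable (𝓕 (⇑φ : ℝ → ℂ)) := (𝓕 φ : SchwartzMap ℝ ℂ).integrable
    set ψ : ℝ → ℂ := 𝓕 (⇑φ : ℝ → ℂ) with hψ
    have hz : ∀ s : AddCircle p, ∫ t : ℝ, fourier (-k) s * H (s + (t : AddCircle p)) * ψ t = 0 := by
      intro s
      obtain ⟨s, rfl⟩ := QuotientAddGroup.mk_surjective s
      have := hH s φ h1 hd
      simp_rw [mul_assoc]
      rw [integral_const_mul]
      have e : ∀ t : ℝ, ((s : AddCircle p) + (t : AddCircle p)) = ((t + s : ℝ) : AddCircle p) := by
        intro t; rw [add_comm]; rfl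
      simp_rw [e]
      rw [this, mul_zero]
    have hint : Integrable (Function.uncurry fun (s : AddCircle p) (t : ℝ) =>
        fourier (-k) s * H (s + (t : AddCircle p)) * ψ t)
        ((AddCircle.haarAddCircle (T := p)).prod volume) := by
      have hb : Integrable (fun z : AddCircle p × ℝ => ψ z.2)
          ((AddCircle.haarAddCircle (T := p)).prod volume) := by
        simpa using (integrable_const (1 : ℂ) (μ := AddCircle.haarAddCircle (T := p))).mul_prod hi
      refine hb.bdd_mul (c := ‖H‖) ?_ ?_
      · apply Continuous.aestronglyMeasurable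
        have : Continuous (fun t : ℝ => (t : AddCircle p)) := AddCircle.continuous_mk' p
        fun_prop
      · refine ae_of_all _ fun z => ?_
        rw [norm_mul, fourier_apply, Circle.norm_coe, one_mul]
        exact H.norm_coe_le_norm _
    have hsw := integral_integral_swap hint
    simp_rw [hz] at hsw
    rw [integral_zero] at hsw
    have hin : ∀ t : ℝ, ∫ s : AddCircle p, fourier (-k) s * H (s + (t : AddCircle p)) * ψ t
        ∂AddCircle.haarAddCircle = fourierCoeff H k * (fourier k (t : AddCircle p) * ψ t) := by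
      intro t
      rw [integral_mul_const]
      have e : ∀ s : AddCircle p, fourier (-k) s * H (s + (t : AddCircle p)) =
          (fun u : AddCircle p => fourier (-k) u * H u * fourier k (t : AddCircle p))
            (s + (t : AddCircle p)) := by
        intro s
        have e1 : fourier (-k) (s + (t : AddCircle p)) =
            fourier (-k) s * fourier (-k) (t : AddCircle p) := by
          simp only [fourier_apply, smul_add, AddCircle.toCircle_add, Circle.coe_mul]
        have e2 : fourier (-k) (t : AddCircle p) * fourier k (t : AddCircle p) = 1 := by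
          rw [← fourier_add]; simp
        simp only [e1]
        linear_combination (-(fourier (-k) s * H (s + (t : AddCircle p)))) * e2
      simp_rw [e]
      rw [integral_add_right_eq_self (μ := AddCircle.haarAddCircle (T := p))
        (fun u : AddCircle p => fourier (-k) u * H u * fourier k (t : AddCircle p))]
      rw [integral_mul_const, mul_assoc]
      rfl
    simp_rw [hin] at hsw
    rw [integral_const_mul, hψ, integral_char_fourier, h3, mul_one] at hsw
    exact hsw.symm
  have hs : Summable (fourierCoeff H) :=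
    summable_of_ne_finset_zero (s := {0}) (fun k hk => hc k (by simpa using hk))
  have key : ∀ z : AddCircle p, H z = fourierCoeff H 0 := by
    intro z
    have h1 := has_pointwise_sum_fourier_series_of_summable hs z
    have h2 : HasSum (fun i => fourierCoeff H i • fourier i z) (fourierCoeff H 0 • fourier 0 z) :=
      hasSum_single 0 (fun k hk => by rw [hc k hk, zero_smul])
    rw [h1.unique h2]; simp
  rw [key x, key y]

/-- real-line form -/
theorem const_of_band' (p a : ℝ) (hp : 0 < p) (ha : a < 1 / p) (h : ℝ → ℂ) (hc : Continuous h)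
    (hper : Function.Periodic h p)
    (hH : ∀ s : ℝ, ∀ φ : SchwartzMap ℝ ℂ, HasCompactSupport (⇑φ) →
      Disjoint (tsupport (⇑φ)) (Set.Icc (-a) a) →
      ∫ t : ℝ, h (t + s) * 𝓕 (⇑φ : ℝ → ℂ) t = 0) (x y : ℝ) :
    h x = h y := by
  have : Fact (0 < p) := ⟨hp⟩
  let H : C(AddCircle p, ℂ) := ⟨hper.lift, continuous_coinduced_dom.2 hc⟩
  exact const_of_band p a ha H hH (x : AddCircle p) (y : AddCircle p)

end Pool.Agent.H931Z.Band
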