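import Mathlib
import Pool.Agent.H931Z.BandFourier
import Pool.Agent.H931Z.BandDim

set_option autoImplicit false
open scoped FourierTransform
open Set Metric MeasureTheory Filter Topology

namespace Pool.Agent.H931Z.Band

/-- radii 0, 1, 1/2, 1/3, ... -/
def E : Set ℝ := insert 0 (range fun n : ℕ => 1 / ((n : ℝ) + 1))

theorem E_compact : IsCompact E := tendsto_one_div_add_atTop_nhds_zero_nat.isCompact_insert_range

theorem E_countable : E.Countable := (countable_range _).insert _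

theorem E_le {e : ℝ} (he : e ∈ E) : e ≤ 1 := by
  rcases he with rfl | ⟨n, rfl⟩
  · norm_num
  · have : (0 : ℝ) ≤ n := n.cast_nonneg
    rw [div_le_one (by positivity)]; linarith

/-- countably many circles of a Moebius band -/
def S : Set (ℂ × ℂ) := {q | ‖q.1‖ = 1 ∧ ‖q.2‖ ∈ E ∧ q.2 ^ 2 = (‖q.2‖ : ℂ) ^ 2 * q.1}

theorem S_compact : IsCompact S := by
  apply Metric.isCompact_of_isClosed_isBounded
  · refine (isClosed_eq (by fun_prop) continuous_const).inter (IsClosed.inter ?_ ?_)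
    · exact E_compact.isClosed.preimage (f := fun q : ℂ × ℂ => ‖q.2‖) (by fun_prop)
    · exact isClosed_eq (f := fun q : ℂ × ℂ => q.2 ^ 2) (by fun_prop) (by fun_prop)
  · rw [isBounded_iff_forall_norm_le]
    refine ⟨1, fun q hq => ?_⟩
    rw [Prod.norm_def]
    exact max_le hq.1.le (E_le hq.2.1)

/-- the phase space -/
def X : Type := S

noncomputable instance : MetricSpace X := inferInstanceAs (MetricSpace S)

instance : CompactSpace X := isCompact_iff_compactSpace.1 S_compact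

/-- the character s to exp (2 pi i s) -/
noncomputable def chi (s : ℝ) : ℂ := Complex.exp (2 * Real.pi * Complex.I * s)

theorem chi_norm (s : ℝ) : ‖chi s‖ = 1 := by
  have : (2 * Real.pi * Complex.I * s : ℂ) = ((2 * Real.pi * s : ℝ) : ℂ) * Complex.I := by
    push_cast; ring
  rw [chi, this, Complex.norm_exp_ofReal_mul_I]

theorem chi_add (s t : ℝ) : chi (s + t) = chi s * chi t := by
  simp only [chi, ← Complex.exp_add]; congr 1; push_cast; ring

theorem chi_zero : chi 0 = 1 := by simp [chi]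

theorem chi_one : chi 1 = 1 := by simp [chi, Complex.exp_two_pi_mul_I]

theorem chi_cont : Continuous chi := by unfold chi; fun_prop

theorem chi_eq_one {s : ℝ} (hs : 0 < s) (h : chi s = 1) : 1 ≤ s := by
  obtain ⟨n, hn⟩ := Complex.exp_eq_one_iff.1 h
  have h2 : (2 * Real.pi * Complex.I : ℂ) ≠ 0 := by simp [Real.pi_ne_zero]
  have h3 : (s : ℂ) = n := by
    apply mul_left_cancel₀ h2
    rw [hn]; ring
  have h4 : s = n := by exact_mod_cast h3
  rw [h4] at hs ⊢
  have : 0 < n := by exact_mod_cast hs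
  exact_mod_cast this

/-- the flow -/
noncomputable def flow (t : ℝ) (x : X) : X :=
  ⟨(chi ((1 + ‖x.1.2‖) * t) ^ 2 * x.1.1, chi ((1 + ‖x.1.2‖) * t) * x.1.2), by
    obtain ⟨h1, h2, h3⟩ := x.2
    refine ⟨?_, ?_, ?_⟩
    · simp [chi_norm, h1]
    · simpa [chi_norm] using h2
    · simp only [norm_mul, chi_norm, one_mul]
      rw [mul_pow, h3]; ring⟩

theorem flow_norm (t : ℝ) (x : X) : ‖(flow t x).1.2‖ = ‖x.1.2‖ := by
  simp [flow, chi_norm]

noncomputable instance : AddAction ℝ X where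
  vadd := flow
  zero_vadd x := by
    apply Subtype.ext
    show (_, _) = x.1
    simp [chi_zero]
  add_vadd s t x := by
    apply Subtype.ext
    show (_, _) = (chi ((1 + ‖(flow t x).1.2‖) * s) ^ 2 * (flow t x).1.1,
      chi ((1 + ‖(flow t x).1.2‖) * s) * (flow t x).1.2)
    rw [flow_norm, mul_add, chi_add]
    simp only [flow]
    congr 1 <;> ring

theorem vadd_val (t : ℝ) (x : X) : (t +ᵥ x).1 =
    (chi ((1 + ‖x.1.2‖) * t) ^ 2 * x.1.1, chi ((1 + ‖x.1.2‖) * t) * x.1.2) := rfl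

instance : ContinuousVAdd ℝ X where
  continuous_vadd := by
    apply Continuous.subtype_mk (f := fun p : ℝ × X =>
      (chi ((1 + ‖p.2.1.2‖) * p.1) ^ 2 * p.2.1.1, chi ((1 + ‖p.2.1.2‖) * p.1) * p.2.1.2))
    have h1 : Continuous (fun x : X => x.1) := continuous_subtype_val
    have := chi_cont
    fun_prop

theorem period_ge {r : ℝ} (hr : 0 < r) {x : X} (hx : r +ᵥ x = x) : 1 / 2 ≤ r := by
  have h := congrArg Subtype.val hx
  rw [vadd_val] at h
  have h1 := congrArg Prod.fst h
  have h2 := congrArg Prod.snd h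
  simp only at h1 h2
  obtain ⟨a1, a2, a3⟩ := x.2
  by_cases hw : x.1.2 = 0
  · have hz : x.1.1 ≠ 0 := by
      intro h0; rw [h0] at a1; simp at a1
    rw [hw] at h1
    simp only [norm_zero, add_zero, one_mul] at h1
    have : chi (r + r) = 1 := by
      rw [chi_add, ← sq]
      exact mul_right_cancel₀ hz (by rw [h1, one_mul])
    have := chi_eq_one (by linarith) this
    linarith
  · have : chi ((1 + ‖x.1.2‖) * r) = 1 := mul_right_cancel₀ hw (by rw [h2, one_mul])
    have h5 := chi_eq_one (by positivity) this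
    have := E_le a2
    nlinarith

theorem fibre_countable (t : ℝ) : ((fun x : X => x.1.1.re) ⁻¹' {t}).Countable := by
  have hsq : ∀ c : ℂ, {w : ℂ | w ^ 2 = c}.Finite := by
    intro c
    refine (Polynomial.nthRoots 2 c).toFinset.finite_toSet.subset ?_
    intro w hw
    simpa [Polynomial.mem_nthRoots] using hw
  let Z : Set ℂ := (fun u : ℂ => (t : ℂ) + u) '' {u : ℂ | u ^ 2 = (t : ℂ) ^ 2 - 1}
  have hZ : Z.Finite := (hsq _).image _
  let W : Set (ℂ × ℂ) := ⋃ z ∈ Z, ⋃ e ∈ E, {z} ×ˢ {w : ℂ | w ^ 2 = (e : ℂ) ^ 2 * z}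
  have hW : W.Countable :=
    hZ.countable.biUnion fun z _ => E_countable.biUnion fun e _ =>
      (countable_singleton _).prod (hsq _).countable
  refine (hW.preimage_of_injOn (f := fun x : X => x.1) Subtype.val_injective.injOn).mono ?_
  intro x hx
  obtain ⟨a1, a2, a3⟩ := x.2
  have hx' : x.1.1.re = t := hx
  simp only [W, mem_preimage, mem_iUnion]
  refine ⟨x.1.1, ⟨x.1.1 - t, ?_, by ring⟩, ‖x.1.2‖, a2, rfl, a3⟩
  have h1 : x.1.1.re ^ 2 + x.1.1.im ^ 2 = 1 := by
    have := Complex.sq_norm x.1.1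
    rw [a1, Complex.normSq_apply] at this
    nlinarith
  show (x.1.1 - t) ^ 2 = (t : ℂ) ^ 2 - 1
  apply Complex.ext
  · simp [sq]; rw [hx'] at h1 ⊢; nlinarith
  · simp [sq, hx']

theorem X_dim {ι : Type} (α : ι → Set X) (hα : ∀ i, IsOpen (α i)) (hcov : (⋃ i, α i) = univ) :
    ∃ (m : ℕ) (γ : Fin m → Set X), (∀ j, IsOpen (γ j)) ∧ (⋃ j, γ j) = univ ∧
      (∀ j, ∃ i, γ j ⊆ α i) ∧ ∀ x, {j : Fin m | x ∈ γ j}.ncard ≤ 2 := by
  have h1 : Continuous (fun x : X => x.1) := continuous_subtype_val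
  exact dim_le_one (fun x : X => x.1.1.re) (by fun_prop) fibre_countable α hα hcov

/-- the points (1, e) -/
def pt (e : ℝ) (he : e ∈ E) (h0 : 0 ≤ e) : X :=
  ⟨(1, (e : ℂ)), by
    refine ⟨by simp, ?_, ?_⟩
    · simpa [abs_of_nonneg h0] using he
    · simp [abs_of_nonneg h0]⟩

theorem no_embedding (Φ : X → C(ℝ, ℝ)) (hc : Continuous Φ) (hi : Function.Injective Φ)
    (hb : ∀ (x : X) (t : ℝ), |Φ x t| ≤ 1)
    (hs : ∀ (x : X) (φ : SchwartzMap ℝ ℂ), HasCompactSupport (⇑φ) →
        Disjoint (tsupport (⇑φ)) (Set.Icc (-2) 2) →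
        ∫ t, ((Φ x t : ℝ) : ℂ) * 𝓕 (⇑φ : ℝ → ℂ) t = 0)
    (he : ∀ (r : ℝ) (x : X) (t : ℝ), Φ (r +ᵥ x) t = Φ x (t + r)) : False := by
  let ε : ℕ → ℝ := fun n => 1 / ((n : ℝ) + 1)
  have hε0 : ∀ n, 0 < ε n := fun n => by simp only [ε]; positivity
  have hεt : Tendsto ε atTop (𝓝 0) := tendsto_one_div_add_atTop_nhds_zero_nat
  let x : ℕ → X := fun n => pt (ε n) (Or.inr ⟨n, rfl⟩) (hε0 n).le
  let y : X := pt 0 (Or.inl rfl) le_rfl
  let p : ℕ → ℝ := fun n => 1 / (2 * (1 + ε n))
  have hp0 : ∀ n, 0 < p n := fun n => by have := hε0 n; simp only [p]; positivity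
  have hper : ∀ n, (p n + p n) +ᵥ x n = x n := by
    intro n
    apply Subtype.ext
    rw [vadd_val]
    have h1 : (1 + ‖(x n).1.2‖) * (p n + p n) = 1 := by
      have : ‖(x n).1.2‖ = ε n := by simp [x, pt, abs_of_pos (hε0 n)]
      rw [this]
      have := hε0 n
      simp only [p]; field_simp; norm_num
    rw [h1, chi_one]; simp
  have key : ∀ n t, Φ (x n) t + Φ (p n +ᵥ x n) t = Φ (x n) 0 + Φ (p n +ᵥ x n) 0 := by
    intro n t
    have := const_of_band' (p n) 2 (hp0 n) (by
        have := hε0 n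
        simp only [p, one_div, inv_inv]; linarith)
      (fun t => ((Φ (x n) t : ℝ) : ℂ) + ((Φ (p n +ᵥ x n) t : ℝ) : ℂ)) (by fun_prop) (by
        intro t
        simp only [← he, ← add_vadd, hper]
        ring) (by
        intro s φ h1 h2
        have hi : Integrable (𝓕 (⇑φ : ℝ → ℂ)) := (𝓕 φ : SchwartzMap ℝ ℂ).integrable
        have hint : ∀ u : X, Integrable (fun t : ℝ => ((Φ u t : ℝ) : ℂ) * 𝓕 (⇑φ : ℝ → ℂ) t) := by
          intro u
          refine hi.bdd_mul (c := 1) (Continuous.aestronglyMeasurable (by fun_prop)) ?_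
          exact ae_of_all _ fun t => by simpa using hb u t
        simp only [← he, add_mul]
        rw [integral_add (hint _) (hint _), hs _ φ h1 h2, hs _ φ h1 h2, add_zero]) t 0
    exact_mod_cast this
  have hxy : Tendsto x atTop (𝓝 y) := by
    refine (tendsto_subtype_rng (p := fun q => q ∈ S)).2 ?_
    refine Tendsto.prodMk_nhds tendsto_const_nhds ?_
    exact (Complex.continuous_ofReal.tendsto 0).comp hεt
  have hpt : Tendsto p atTop (𝓝 (1 / 2)) := by
    have : Tendsto (fun n => 1 / (2 * (1 + ε n))) atTop (𝓝 (1 / (2 * (1 + 0)))) :=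
      Tendsto.div tendsto_const_nhds (Tendsto.const_mul _ (hεt.const_add 1)) (by norm_num)
    rwa [add_zero, mul_one] at this
  have hy : (1 / 2 : ℝ) +ᵥ y = y := by
    apply Subtype.ext
    rw [vadd_val]
    have : chi (1 / 2) ^ 2 = 1 := by rw [sq, ← chi_add]; norm_num [chi_one]
    simp only [y, pt, Complex.ofReal_zero, norm_zero, add_zero, one_mul, this, mul_zero, mul_one]
  have hxy' : Tendsto (fun n => p n +ᵥ x n) atTop (𝓝 y) := by
    have := hpt.vadd hxy
    rwa [hy] at this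
  have hev : ∀ t, Continuous fun u : X => Φ u t := fun t =>
    (continuous_eval_const t).comp hc
  have hconst : ∀ t, Φ y t = Φ y 0 := by
    intro t
    have a := (((hev t).tendsto y).comp hxy).add (((hev t).tendsto y).comp hxy')
    have b := (((hev 0).tendsto y).comp hxy).add (((hev 0).tendsto y).comp hxy')
    have := tendsto_nhds_unique (a.congr (fun n => key n t)) b
    linarith
  have : Φ ((1 / 4 : ℝ) +ᵥ y) = Φ y := by
    ext t
    rw [he, hconst, hconst t]
  have := period_ge (by norm_num) (hi this)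
  norm_num at this

end Pool.Agent.H931Z.Band
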