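import Mathlib
import Pool.Agent.H931Z.MixCantor

set_option autoImplicit false

namespace Pool.Agent.H931Z.Mix

open Pool.Agent.H404Z.ULC

/-- the one-dimensional mixed badly approximable set, in a form with a height function -/
def S1 (δ : ℕ → ℕ) (u : ℕ → ℝ) : Set ℝ :=
  {θ | ∃ c : ℝ, 0 < c ∧ ∀ q : ℕ, 1 ≤ q → ∀ A : ℤ, A ≠ 0 → |(A : ℝ)| ≤ u q → ∀ C : ℤ,
    c / q ≤ |A * θ + C / δ q|}

theorem int_abs_ge {z : ℤ} (hz : z ≠ 0) : (1 : ℝ) ≤ |(z : ℝ)| := by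
  have := Int.one_le_abs hz
  exact_mod_cast this

theorem level {R x : ℝ} (hR : 1 < R) {c : ℝ} (hc : 0 < c) (h : c * R ≤ x) :
    ∃ n : ℕ, c * R ^ (n + 1) ≤ x ∧ x < c * R ^ (n + 2) := by
  have h0 : 0 < c * R := by positivity
  obtain ⟨n, h1, h2⟩ := exists_nat_pow_near (x := x / (c * R)) (y := R)
    (by rw [le_div_iff₀ h0]; linarith) hR
  rw [le_div_iff₀ h0] at h1
  rw [div_lt_iff₀ h0] at h2
  refine ⟨n, ?_, ?_⟩
  · calc c * R ^ (n + 1) = R ^ n * (c * R) := by ring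
      _ ≤ x := h1
  · calc x < R ^ (n + 1) * (c * R) := h2
      _ = _ := by ring

theorem sep_one {δ : ℕ → ℕ} {u : ℕ → ℝ} {M : ℝ} (hδ : ∀ q, 1 ≤ δ q)
    (hdv : ∀ q q', q ≤ q' → δ q ∣ δ q') (hu : Monotone u)
    (hM : ∀ q : ℕ, 1 ≤ q → δ q * u q ≤ M * q) {q q' : ℕ} (hq : 1 ≤ q) (hqq : q ≤ q')
    {A A' C C' : ℤ} (hA : A ≠ 0) (hA' : A' ≠ 0) (hAu : |(A : ℝ)| ≤ u q)
    (hne : -(C : ℝ) / (δ q * A) ≠ -(C' : ℝ) / (δ q' * A')) :
    1 ≤ |-(C : ℝ) / (δ q * A) - -(C' : ℝ) / (δ q' * A')| * (M * (|(A' : ℝ)| * q')) := by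
  obtain ⟨e, he⟩ := hdv q q' hqq
  have d1 : (0 : ℝ) < δ q := by exact_mod_cast hδ q
  have d2 : (0 : ℝ) < δ q' := by exact_mod_cast hδ q'
  have he' : (δ q' : ℝ) = δ q * e := by exact_mod_cast he
  have he0 : (e : ℝ) ≠ 0 := by
    intro h; rw [h, mul_zero] at he'; exact d2.ne' he'
  have a1 : (A : ℝ) ≠ 0 := by exact_mod_cast hA
  have a2 : (A' : ℝ) ≠ 0 := by exact_mod_cast hA'
  set x := -(C : ℝ) / (δ q * A) - -(C' : ℝ) / (δ q' * A') with hx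
  have hx0 : x ≠ 0 := sub_ne_zero.2 hne
  have hz : x * (δ q' * A * A') = ((C' * A - C * e * A' : ℤ) : ℝ) := by
    rw [hx, he']; push_cast; field_simp; ring
  have hz0 : (C' * A - C * e * A' : ℤ) ≠ 0 := by
    intro h
    rw [h] at hz
    simp only [Int.cast_zero, mul_eq_zero] at hz
    rcases hz with h | (h | h) | h
    · exact hx0 h
    · exact d2.ne' h
    · exact a1 h
    · exact a2 h
  have h1 := int_abs_ge hz0
  rw [← hz, abs_mul, abs_mul, abs_mul, abs_of_pos d2] at h1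
  refine h1.trans (mul_le_mul_of_nonneg_left ?_ (abs_nonneg _))
  have h2 : (δ q' : ℝ) * |(A : ℝ)| ≤ M * q' :=
    le_trans (mul_le_mul_of_nonneg_left (hAu.trans (hu hqq)) d2.le) (hM q' (by omega))
  calc (δ q' : ℝ) * |(A : ℝ)| * |(A' : ℝ)| ≤ M * q' * |(A' : ℝ)| :=
        mul_le_mul_of_nonneg_right h2 (abs_nonneg _)
    _ = _ := by ring

theorem cw_S1 {δ : ℕ → ℕ} {u : ℕ → ℝ} {M : ℝ} (hM1 : 1 ≤ M) (hδ : ∀ q, 1 ≤ δ q)
    (hdv : ∀ q q', q ≤ q' → δ q ∣ δ q') (hu : Monotone u)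
    (hM : ∀ q : ℕ, 1 ≤ q → δ q * u q ≤ M * q) : CW (S1 δ u) := by
  refine ⟨1, fun ρ hρ => ?_⟩
  set R : ℝ := ((2 ^ ρ : ℕ) : ℝ) with hR
  have hR1 : 1 < R := by
    rw [hR]; exact_mod_cast Nat.one_lt_two_pow (by omega)
  have hR0 : 0 < R := by linarith
  set c : ℝ := 1 / (5 * M * R ^ 2) with hc
  have hc0 : 0 < c := by positivity
  let Y : Unit → ℕ → ℕ → Set ℝ := fun _ n m => {y | m = n ∧ ∃ (q : ℕ) (A C : ℤ), 1 ≤ q ∧ A ≠ 0 ∧
    |(A : ℝ)| ≤ u q ∧ c * R ^ (n + 1) ≤ |(A : ℝ)| * q ∧ |(A : ℝ)| * q < c * R ^ (n + 2) ∧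
    y = -(C : ℝ) / (δ q * A)}
  refine ⟨Unit, inferInstance, Y, by simpa using hρ, ?_, ?_⟩
  · rintro _ n m ζ _ _ y ⟨rfl, q, A, C, hq, hA, hAu, -, h2, rfl⟩ y'
      ⟨-, q', A', C', hq', hA', hAu', -, h2', rfl⟩ hy hy'
    rw [← hR] at hy hy' ⊢
    by_cases hne : -(C : ℝ) / (δ q * A) = -(C' : ℝ) / (δ q' * A')
    · rw [hne, sub_self, abs_zero]; positivity
    exfalso
    have hd : |-(C : ℝ) / (δ q * A) - -(C' : ℝ) / (δ q' * A')| ≤ 4 / R ^ m := by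
      have := abs_sub_le (-(C : ℝ) / (δ q * A)) ζ (-(C' : ℝ) / (δ q' * A'))
      rw [abs_sub_comm _ ζ] at this
      have e : 4 / R ^ m = 2 / R ^ m + 2 / R ^ m := by ring
      linarith
    have key : 4 / R ^ m * (M * (c * R ^ (m + 2))) < 1 := by
      have : 4 / R ^ m * (M * (c * R ^ (m + 2))) = 4 / 5 := by
        rw [hc]; field_simp; ring
      rw [this]; norm_num
    rcases le_total q q' with h | h
    · have := sep_one hδ hdv hu hM hq h hA hA' hAu hne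
      have h3 : |-(C : ℝ) / (δ q * A) - -(C' : ℝ) / (δ q' * A')| * (M * (|(A' : ℝ)| * q')) ≤
          4 / R ^ m * (M * (c * R ^ (m + 2))) := by gcongr
      linarith
    · have := sep_one hδ hdv hu hM hq' h hA' hA hAu' (Ne.symm hne)
      rw [abs_sub_comm] at this
      have h3 : |-(C : ℝ) / (δ q * A) - -(C' : ℝ) / (δ q' * A')| * (M * (|(A : ℝ)| * q)) ≤
          4 / R ^ m * (M * (c * R ^ (m + 2))) := by gcongr
      linarith
  · intro ζ hζ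
    refine ⟨c, hc0, fun q hq A hA hAu C => ?_⟩
    have hq' : (1 : ℝ) ≤ q := by exact_mod_cast hq
    have a1 := int_abs_ge hA
    have hcR : c * R ≤ |(A : ℝ)| * q := by
      have h1 : c * R ≤ 1 := by
        rw [hc, one_div, inv_mul_le_iff₀ (by positivity)]
        nlinarith
      nlinarith
    obtain ⟨n, h1, h2⟩ := level hR1 hc0 hcR
    have := hζ (n + 1) () n n (by omega) le_rfl _ ⟨rfl, q, A, C, hq, hA, hAu, h1, h2, rfl⟩
    rw [← hR] at this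
    have d1 : (0 : ℝ) < δ q := by exact_mod_cast hδ q
    have a0 : (A : ℝ) ≠ 0 := by exact_mod_cast hA
    have e : (A : ℝ) * ζ + C / δ q = A * (ζ - -(C : ℝ) / (δ q * A)) := by field_simp; ring
    rw [e, abs_mul, div_le_iff₀ (by positivity)]
    rw [div_le_iff₀ (by positivity)] at this
    have hp : 0 < R ^ (n + 1) := by positivity
    have h0 := abs_nonneg (ζ - -(C : ℝ) / (δ q * A))
    calc c = c * 1 := by ring
      _ ≤ c * (|ζ - -(C : ℝ) / (δ q * A)| * R ^ (n + 1)) := by gcongr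
      _ = |ζ - -(C : ℝ) / (δ q * A)| * (c * R ^ (n + 1)) := by ring
      _ ≤ |ζ - -(C : ℝ) / (δ q * A)| * (|(A : ℝ)| * q) := by gcongr
      _ = _ := by ring

/-- pigeonhole: a short solution of a linear congruence in two unknowns -/
theorem exists_line (q' : ℕ) (hq : 1 ≤ q') (p r : ℤ) (X Y : ℝ) (hX : 0 ≤ X) (hY : 0 ≤ Y)
    (h : (q' : ℝ) ≤ X * Y) :
    ∃ A B C : ℤ, (A ≠ 0 ∨ B ≠ 0) ∧ |(A : ℝ)| ≤ X ∧ |(B : ℝ)| ≤ Y ∧ A * p + B * r + C * q' = 0 := by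
  have : NeZero q' := ⟨by omega⟩
  have hcard : (Finset.univ : Finset (ZMod q')).card <
      (Finset.range (⌊X⌋₊ + 1) ×ˢ Finset.range (⌊Y⌋₊ + 1)).card := by
    rw [Finset.card_univ, ZMod.card, Finset.card_product, Finset.card_range, Finset.card_range]
    have h1 := Nat.lt_floor_add_one X
    have h2 := Nat.lt_floor_add_one Y
    have : X * Y < (⌊X⌋₊ + 1) * (⌊Y⌋₊ + 1) := mul_lt_mul'' h1 h2 hX hY
    have h3 : (q' : ℝ) < ((⌊X⌋₊ + 1) * (⌊Y⌋₊ + 1) : ℕ) := by push_cast; linarith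
    exact_mod_cast h3
  obtain ⟨⟨a, b⟩, hab, ⟨a', b'⟩, hab', hne, he⟩ := Finset.exists_ne_map_eq_of_card_lt_of_maps_to
    hcard (f := fun z : ℕ × ℕ => (((z.1 : ℤ) * p + (z.2 : ℤ) * r : ℤ) : ZMod q'))
    (fun _ _ => Finset.mem_univ _)
  simp only [Finset.mem_product, Finset.mem_range] at hab hab'
  obtain ⟨C, hC⟩ := (ZMod.intCast_eq_intCast_iff_dvd_sub _ _ _).1 he
  have fX := Nat.floor_le hX
  have fY := Nat.floor_le hY
  have a1 : (a : ℝ) ≤ ⌊X⌋₊ := by exact_mod_cast Nat.lt_succ_iff.1 hab.1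
  have a2 : (a' : ℝ) ≤ ⌊X⌋₊ := by exact_mod_cast Nat.lt_succ_iff.1 hab'.1
  have b1 : (b : ℝ) ≤ ⌊Y⌋₊ := by exact_mod_cast Nat.lt_succ_iff.1 hab.2
  have b2 : (b' : ℝ) ≤ ⌊Y⌋₊ := by exact_mod_cast Nat.lt_succ_iff.1 hab'.2
  have a3 : (0 : ℝ) ≤ a := a.cast_nonneg
  have a4 : (0 : ℝ) ≤ a' := a'.cast_nonneg
  have b3 : (0 : ℝ) ≤ b := b.cast_nonneg
  have b4 : (0 : ℝ) ≤ b' := b'.cast_nonneg
  refine ⟨a - a', b - b', C, ?_, ?_, ?_, ?_⟩
  · by_contra hc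
    push Not at hc
    apply hne
    ext <;> simp only <;> omega
  · push_cast; rw [abs_le]; constructor <;> linarith
  · push_cast; rw [abs_le]; constructor <;> linarith
  · simp only at hC
    linarith

end Pool.Agent.H931Z.Mix
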