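import Mathlib
import Pool.Agent.H931Z.MixOne

set_option autoImplicit false

namespace Pool.Agent.H931Z.Mix

open Pool.Agent.H404Z.ULC

/-- data of the two-dimensional problem -/
structure Data where
  δ : ℕ → ℕ
  u : ℕ → ℝ
  v : ℕ → ℝ
  M : ℝ
  hM1 : 1 ≤ M
  hδ : ∀ q, 1 ≤ δ q
  hdv : ∀ q q', q ≤ q' → δ q ∣ δ q'
  hu : Monotone u
  hv : Monotone v
  hu1 : ∀ q : ℕ, 1 ≤ q → 1 ≤ u q
  hv1 : ∀ q : ℕ, 1 ≤ q → 1 ≤ v q
  hvq : ∀ q : ℕ, 1 ≤ q → v q ≤ q
  hM : ∀ q : ℕ, 1 ≤ q → δ q * u q * v q ≤ M * q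
  hm : ∀ q : ℕ, 1 ≤ q → (q : ℝ) ≤ δ q * u q * v q

/-- a dangerous point with a line through it -/
structure Pt (d : Data) (θ κ : ℝ) (q : ℕ) (p r A B C : ℤ) : Prop where
  hq : 1 ≤ q
  hdiv : d.δ q ∣ q
  hx : |θ - p / q| * (q * d.u q) ≤ κ
  hA : |(A : ℝ)| ≤ d.u q
  hB0 : B ≠ 0
  hB : |(B : ℝ)| ≤ d.v q
  hL : (A : ℝ) * (p / q) + B * (r / q) + C / d.δ q = 0

variable {d : Data} {θ κ : ℝ}

theorem exists_pt {c : ℝ} (hθ : ∀ q : ℕ, 1 ≤ q → ∀ A : ℤ, A ≠ 0 → |(A : ℝ)| ≤ d.u q → ∀ C : ℤ,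
    c / q ≤ |A * θ + C / d.δ q|) (hκ : κ < c) {q : ℕ} (hq : 1 ≤ q) (hdiv : d.δ q ∣ q) (p r : ℤ)
    (hx : |θ - p / q| * (q * d.u q) ≤ κ) : ∃ A B C, Pt d θ κ q p r A B C := by
  obtain ⟨e, he⟩ := hdiv
  have d1 : (0 : ℝ) < d.δ q := by exact_mod_cast d.hδ q
  have q0 : (0 : ℝ) < q := by exact_mod_cast hq
  have he' : (q : ℝ) = d.δ q * e := by exact_mod_cast he
  have he1 : 1 ≤ e := by
    rcases Nat.eq_zero_or_pos e with h | h
    · rw [h] at he; omega
    · exact h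
  have e0 : (0 : ℝ) < e := by exact_mod_cast he1
  have u1 := d.hu1 q hq
  have v1 := d.hv1 q hq
  obtain ⟨A, B, C, h0, hA, hB, hL⟩ := exists_line e he1 p r (d.u q) (d.v q) (by linarith)
    (by linarith) (by
      have := d.hm q hq
      rw [he', mul_assoc] at this
      exact le_of_mul_le_mul_left this d1)
  have hL' : (A : ℝ) * (p / q) + B * (r / q) + C / d.δ q = 0 := by
    have : (A : ℝ) * p + B * r + C * e = 0 := by exact_mod_cast hL
    have e1 : (A : ℝ) * (p / q) + B * (r / q) + C / d.δ q = (A * p + B * r + C * e) / q := by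
      have : (C : ℝ) / d.δ q = C * e / q := by
        rw [div_eq_div_iff d1.ne' q0.ne', he']; ring
      rw [this]; ring
    rw [e1, this, zero_div]
  refine ⟨A, B, C, hq, ⟨e, he⟩, hx, hA, ?_, hB, hL'⟩
  rintro rfl
  have hA0 : A ≠ 0 := by simpa using h0
  have h1 := hθ q hq A hA0 hA C
  have e2 : (A : ℝ) * θ + C / d.δ q = A * (θ - p / q) := by
    simp only [Int.cast_zero, zero_mul, add_zero] at hL'
    linarith
  rw [e2, abs_mul, div_le_iff₀ q0] at h1
  have : |(A : ℝ)| * |θ - p / q| * q ≤ d.u q * |θ - p / q| * q := by gcongr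
  nlinarith

/-- the ordinate of the line at θ -/
noncomputable def zz (d : Data) (θ : ℝ) (q : ℕ) (A B C : ℤ) : ℝ := -(A * θ + C / d.δ q) / B

theorem Pt.zz_close {q : ℕ} {p r A B C : ℤ} (h : Pt d θ κ q p r A B C) :
    |zz d θ q A B C - r / q| * (|(B : ℝ)| * q) ≤ κ := by
  have b0 : (B : ℝ) ≠ 0 := by exact_mod_cast h.hB0
  have e : (zz d θ q A B C - r / q) * B = -(A * (θ - p / q)) := by
    have := h.hL
    rw [zz, sub_mul, div_mul_cancel₀ _ b0]
    linear_combination -this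
  have q0 : (0 : ℝ) ≤ q := q.cast_nonneg
  calc _ = |(zz d θ q A B C - r / q) * B| * q := by rw [abs_mul]; ring
    _ = |(A : ℝ)| * |θ - p / q| * q := by rw [e, abs_neg, abs_mul]
    _ ≤ d.u q * |θ - p / q| * q := by have := h.hA; gcongr
    _ = |θ - p / q| * (q * d.u q) := by ring
    _ ≤ κ := h.hx

/-- generic class: the second point lies on the line of the first -/
theorem generic {q q' : ℕ} {p r A B C p' r' A' B' C' : ℤ} (h : Pt d θ κ q p r A B C)
    (h' : Pt d θ κ q' p' r' A' B' C') (h1 : q ≤ q') (h2 : q' ≤ 2 * q)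
    (hy : 4 * κ + 2 * (|(r : ℝ) / q - r' / q'| * (|(B : ℝ)| * q)) < 1) :
    |(r : ℝ) / q - r' / q'| * (|(B : ℝ)| * q) ≤ 2 * κ := by
  have q0 : (0 : ℝ) < q := by exact_mod_cast h.hq
  have q0' : (0 : ℝ) < q' := by exact_mod_cast h'.hq
  have h1' : (q : ℝ) ≤ q' := by exact_mod_cast h1
  have h2' : (q' : ℝ) ≤ 2 * q := by exact_mod_cast h2
  have d1 : (0 : ℝ) < d.δ q := by exact_mod_cast d.hδ q
  have u1 := d.hu1 q h.hq
  obtain ⟨e, he⟩ := (d.hdv q q' h1).trans h'.hdiv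
  have he' : (q' : ℝ) = d.δ q * e := by exact_mod_cast he
  have hx : |(A : ℝ)| * |(p : ℝ) / q - p' / q'| * q ≤ 2 * κ := by
    have a1 := h.hx
    have a2 : |θ - p' / q'| * (q * d.u q) ≤ κ :=
      le_trans (mul_le_mul_of_nonneg_left (mul_le_mul h1' (d.hu h1) (by linarith) q0'.le)
        (abs_nonneg _)) h'.hx
    have a3 := abs_sub_le ((p : ℝ) / q) θ (p' / q')
    rw [abs_sub_comm _ θ] at a3
    calc _ ≤ d.u q * (|θ - p / q| + |θ - p' / q'|) * q := by have := h.hA; gcongr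
      _ = |θ - p / q| * (q * d.u q) + |θ - p' / q'| * (q * d.u q) := by ring
      _ ≤ _ := by linarith
  have hZ : ((A * p' + B * r' + C * e : ℤ) : ℝ) =
      -(q' * (A * ((p : ℝ) / q - p' / q') + B * ((r : ℝ) / q - r' / q'))) := by
    have a1 := h.hL
    have a2 : (C : ℝ) * e = q' * (C / d.δ q) := by rw [he']; field_simp
    have a3 : (p' : ℝ) = q' * (p' / q') := by field_simp
    have a4 : (r' : ℝ) = q' * (r' / q') := by field_simp
    push_cast
    rw [a2]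
    linear_combination (A : ℝ) * a3 + (B : ℝ) * a4 + (q' : ℝ) * a1
  have hZ0 : (A * p' + B * r' + C * e : ℤ) = 0 := by
    by_contra hne
    have a1 := int_abs_ge hne
    rw [hZ, abs_neg, abs_mul, abs_of_pos q0'] at a1
    have a2 := abs_add_le (A * ((p : ℝ) / q - p' / q')) (B * ((r : ℝ) / q - r' / q'))
    rw [abs_mul, abs_mul] at a2
    have a3 : (q' : ℝ) * |A * ((p : ℝ) / q - p' / q') + B * ((r : ℝ) / q - r' / q')| ≤
        2 * q * (|(A : ℝ)| * |(p : ℝ) / q - p' / q'| + |(B : ℝ)| * |(r : ℝ) / q - r' / q'|) := by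
      gcongr
    nlinarith
  rw [hZ0] at hZ
  have a5 : A * ((p : ℝ) / q - p' / q') + B * ((r : ℝ) / q - r' / q') = 0 := by
    have : (q' : ℝ) * (A * ((p : ℝ) / q - p' / q') + B * ((r : ℝ) / q - r' / q')) = 0 := by
      simp only [Int.cast_zero] at hZ; linarith
    exact (mul_eq_zero.1 this).resolve_left q0'.ne'
  have a6 : |(B : ℝ)| * |(r : ℝ) / q - r' / q'| = |(A : ℝ)| * |(p : ℝ) / q - p' / q'| := by
    rw [← abs_mul, ← abs_mul, ← abs_neg]; congr 1; linarith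
  calc _ = |(B : ℝ)| * |(r : ℝ) / q - r' / q'| * q := by ring
    _ ≤ _ := by rw [a6]; exact hx

/-- special classes: two different lines produce an earlier dangerous point -/
theorem special {q q' : ℕ} {p r A B C p' r' A' B' C' : ℤ} (h : Pt d θ κ q p r A B C)
    (h' : Pt d θ κ q' p' r' A' B' C') (h1 : q ≤ q') (h2 : q' ≤ 2 * q) {E η W T ζ : ℝ}
    (hκ0 : 0 < κ) (hE : E ≤ η) (hT1 : 1 ≤ T) (hκ1 : κ ≤ 1)
    (hBE : |(B : ℝ)| ≤ E * d.v q) (hBE' : |(B' : ℝ)| ≤ E * d.v q')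
    (hη : ∀ q0 : ℕ, (q0 : ℝ) ≤ 2 * d.M * E * q' → d.v q0 ≤ 2 * d.M * η * d.v q')
    (hz : |ζ - zz d θ q A B C| ≤ W) (hz' : |ζ - zz d θ q' A' B' C'| ≤ W)
    (hW : W * (|(B : ℝ)| * q) ≤ κ * T) (hW' : W * (|(B' : ℝ)| * q') ≤ κ * T)
    (hsm : 12 * d.M ^ 2 * η * T < 1) (hne : zz d θ q A B C ≠ zz d θ q' A' B' C') :
    ∃ (q0 : ℕ) (p0 r0 : ℤ), 1 ≤ q0 ∧ d.δ q0 ∣ q0 ∧ |θ - p0 / q0| * (q0 * d.u q0) ≤ κ ∧
      W * (q0 * d.v q0) ≤ 8 * d.M ^ 2 * η * (κ * T) ∧ |ζ - r0 / q0| * (q0 * d.v q0) < κ := by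
  have q0 : (0 : ℝ) < q := by exact_mod_cast h.hq
  have q0' : (0 : ℝ) < q' := by exact_mod_cast h'.hq
  have h1' : (q : ℝ) ≤ q' := by exact_mod_cast h1
  have h2' : (q' : ℝ) ≤ 2 * q := by exact_mod_cast h2
  have d1 : (0 : ℝ) < d.δ q := by exact_mod_cast d.hδ q
  have d2 : (0 : ℝ) < d.δ q' := by exact_mod_cast d.hδ q'
  have M1 := d.hM1
  have u1 := d.hu1 q' h'.hq
  have v1 := d.hv1 q' h'.hq
  have hM := d.hM q' h'.hq
  have b0 : (B : ℝ) ≠ 0 := by exact_mod_cast h.hB0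
  have b0' : (B' : ℝ) ≠ 0 := by exact_mod_cast h'.hB0
  have b1 := int_abs_ge h.hB0
  have b1' := int_abs_ge h'.hB0
  have hW0 : 0 ≤ W := le_trans (abs_nonneg _) hz
  have hE0 : 0 < E := by
    by_contra hc
    push Not at hc
    have := mul_nonpos_of_nonpos_of_nonneg hc (show 0 ≤ d.v q' by linarith)
    linarith
  have hη0 : 0 < η := by linarith
  have hBv : |(B : ℝ)| ≤ E * d.v q' := hBE.trans (mul_le_mul_of_nonneg_left (d.hv h1) hE0.le)
  have hAu : |(A : ℝ)| ≤ d.u q' := h.hA.trans (d.hu h1)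
  have hAu' := h'.hA
  obtain ⟨e, he⟩ := d.hdv q q' h1
  have he' : (d.δ q' : ℝ) = d.δ q * e := by exact_mod_cast he
  have e0 : (e : ℝ) ≠ 0 := by
    intro h0; rw [h0, mul_zero] at he'; exact d2.ne' he'
  set D : ℝ := (d.δ q' : ℝ) with hD
  set z := zz d θ q A B C with hzd
  set z' := zz d θ q' A' B' C' with hzd'
  have l1 : A * θ + B * z + (C * e) / D = 0 := by
    rw [hzd, zz, he']; field_simp; ring
  have l2 : A' * θ + B' * z' + C' / D = 0 := by
    rw [hzd', zz, ← hD]; field_simp; ring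
  set det : ℤ := A * B' - A' * B with hdet
  set N : ℤ := C' * B - C * e * B' with hN
  have key : D * det * θ - N = D * (B * B') * (z' - z) := by
    have a1 : (C * e : ℝ) = -(D * (A * θ + B * z)) := by
      have : (C * e : ℝ) = D * ((C * e) / D) := by field_simp
      rw [this]; linear_combination D * l1
    have a2 : (C' : ℝ) = -(D * (A' * θ + B' * z')) := by
      have : (C' : ℝ) = D * (C' / D) := by field_simp
      rw [this]; linear_combination D * l2
    rw [hdet, hN]; push_cast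
    rw [a1, a2]; ring
  have hzz : |z' - z| ≤ 2 * W := by
    have := abs_sub_le z' ζ z
    rw [abs_sub_comm z' ζ] at this
    linarith
  have kb : |D * det * θ - N| ≤ D * (|(B : ℝ)| * |(B' : ℝ)|) * (2 * W) := by
    rw [key, abs_mul, abs_mul, abs_mul, abs_of_pos d2]
    gcongr
  -- the basic bound
  have hb2 : D * (|(B : ℝ)| * |(B' : ℝ)|) * (2 * W) * d.u q' ≤ 2 * d.M * E * (κ * T) := by
    calc D * (|(B : ℝ)| * |(B' : ℝ)|) * (2 * W) * d.u q'
        ≤ D * (E * d.v q' * |(B' : ℝ)|) * (2 * W) * d.u q' := by gcongr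
      _ = 2 * E * (D * d.u q' * d.v q') * (W * |(B' : ℝ)|) := by ring
      _ ≤ 2 * E * (d.M * q') * (W * |(B' : ℝ)|) := by gcongr
      _ = 2 * d.M * E * (W * (|(B' : ℝ)| * q')) := by ring
      _ ≤ _ := by gcongr
  have hMη : d.M * η * T ≤ d.M ^ 2 * η * T := by
    have : d.M ≤ d.M ^ 2 := by nlinarith
    gcongr
  have hb3 : 2 * d.M * E * (κ * T) < κ := by
    calc 2 * d.M * E * (κ * T) ≤ 2 * d.M * η * (κ * T) := by gcongr
      _ = κ * (2 * (d.M * η * T)) := by ring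
      _ < κ * 1 := by
        refine mul_lt_mul_of_pos_left ?_ hκ0
        have : 0 < d.M * η * T := by positivity
        linarith
      _ = κ := by ring
  have hdet0 : det ≠ 0 := by
    intro h0
    have hN0 : N ≠ 0 := by
      intro h3
      rw [h0, h3] at key
      simp only [Int.cast_zero, mul_zero, zero_mul, sub_zero] at key
      have : z' - z = 0 := by
        rcases mul_eq_zero.1 key.symm with h4 | h4
        · exact absurd h4 (mul_ne_zero d2.ne' (mul_ne_zero b0 b0'))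
        · exact h4
      exact hne (by linarith)
    have a1 := int_abs_ge hN0
    rw [h0] at kb
    simp only [Int.cast_zero, mul_zero, zero_mul, zero_sub, abs_neg] at kb
    have a2 : 0 ≤ D * (|(B : ℝ)| * |(B' : ℝ)|) * (2 * W) := by positivity
    have a3 := mul_le_mul_of_nonneg_left u1 a2
    linarith
  have det0 : (det : ℝ) ≠ 0 := by exact_mod_cast hdet0
  have det1 := int_abs_ge hdet0
  set Q : ℕ := d.δ q' * det.natAbs with hQ
  have hQr : (Q : ℝ) = D * |(det : ℝ)| := by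
    rw [hQ]; push_cast; rw [Nat.cast_natAbs]; push_cast; rfl
  have hQ1 : 1 ≤ Q := Nat.mul_pos (d.hδ q') (Int.natAbs_pos.2 hdet0)
  have hQ0 : (0 : ℝ) < Q := by exact_mod_cast hQ1
  have hdetb : |(det : ℝ)| ≤ d.u q' * (|(B : ℝ)| + |(B' : ℝ)|) := by
    rw [hdet]; push_cast
    have := abs_sub ((A : ℝ) * B') (A' * B)
    rw [abs_mul, abs_mul] at this
    have a1 : |(A : ℝ)| * |(B' : ℝ)| ≤ d.u q' * |(B' : ℝ)| := by gcongr
    have a2 : |(A' : ℝ)| * |(B : ℝ)| ≤ d.u q' * |(B : ℝ)| := by gcongr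
    linarith
  have hQb : (Q : ℝ) ≤ 2 * d.M * E * q' := by
    calc (Q : ℝ) = D * |(det : ℝ)| := hQr
      _ ≤ D * (d.u q' * (E * d.v q' + E * d.v q')) := by
        refine mul_le_mul_of_nonneg_left (hdetb.trans ?_) d2.le
        gcongr
      _ = 2 * E * (D * d.u q' * d.v q') := by ring
      _ ≤ 2 * E * (d.M * q') := by gcongr
      _ = _ := by ring
  have h2ME : 2 * d.M * E ≤ 1 := by
    have a1 : d.M * E ≤ d.M * η * T := by
      calc d.M * E ≤ d.M * η := by gcongr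
        _ = d.M * η * 1 := by ring
        _ ≤ _ := by gcongr
    have : 0 < d.M * η * T := by positivity
    linarith
  have hQq : Q ≤ q' := by
    have : (Q : ℝ) ≤ q' := hQb.trans (by simpa using mul_le_mul_of_nonneg_right h2ME q0'.le)
    exact_mod_cast this
  have hvQ := hη Q hQb
  have hvQ1 := d.hv1 Q hQ1
  have hsg : (det.sign : ℝ) * |(det : ℝ)| = det := by
    have := Int.sign_mul_abs det
    exact_mod_cast this
  have hx0 : ((det.sign * N : ℤ) : ℝ) / Q = N / (D * det) := by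
    rw [hQr, div_eq_div_iff (by positivity) (mul_ne_zero d2.ne' det0)]
    push_cast
    have : (det.sign : ℝ) * det = |(det : ℝ)| := by
      have := Int.sign_mul_self_eq_abs det
      exact_mod_cast this
    linear_combination (N * D : ℝ) * this
  have hy0 : ((det.sign * (A' * (C * e) - A * C') : ℤ) : ℝ) / Q =
      (A' * (C * e) - A * C') / (D * det) := by
    rw [hQr, div_eq_div_iff (by positivity) (mul_ne_zero d2.ne' det0)]
    push_cast
    have : (det.sign : ℝ) * det = |(det : ℝ)| := by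
      have := Int.sign_mul_self_eq_abs det
      exact_mod_cast this
    linear_combination ((A' * (C * e) - A * C') * D : ℝ) * this
  have hxQ : |θ - N / (D * det)| * Q = |D * det * θ - N| := by
    have : D * det * θ - N = (θ - N / (D * det)) * (D * det) := by field_simp
    rw [this, abs_mul, abs_mul, abs_of_pos d2, hQr]
  have hWQ : W * (Q * d.v Q) ≤ 8 * d.M ^ 2 * η * (κ * T) := by
    have a1 : (Q : ℝ) ≤ D * (d.u q' * (|(B : ℝ)| + |(B' : ℝ)|)) := by
      rw [hQr]; gcongr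
    have a2 : W * (|(B : ℝ)| * q') ≤ 2 * (κ * T) := by
      calc W * (|(B : ℝ)| * q') ≤ W * (|(B : ℝ)| * (2 * q)) := by gcongr
        _ = 2 * (W * (|(B : ℝ)| * q)) := by ring
        _ ≤ _ := by gcongr
    have a3 : 0 ≤ κ * T := by positivity
    calc W * (Q * d.v Q)
        ≤ W * (D * (d.u q' * (|(B : ℝ)| + |(B' : ℝ)|)) * (2 * d.M * η * d.v q')) := by gcongr
      _ = 2 * d.M * η * (D * d.u q' * d.v q') * (W * (|(B : ℝ)| + |(B' : ℝ)|)) := by ring
      _ ≤ 2 * d.M * η * (d.M * q') * (W * (|(B : ℝ)| + |(B' : ℝ)|)) := by gcongr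
      _ = 2 * d.M ^ 2 * η * (W * (|(B : ℝ)| * q') + W * (|(B' : ℝ)| * q')) := by ring
      _ ≤ 2 * d.M ^ 2 * η * (2 * (κ * T) + 2 * (κ * T)) :=
        mul_le_mul_of_nonneg_left (by linarith) (by positivity)
      _ = _ := by ring
  refine ⟨Q, det.sign * N, det.sign * (A' * (C * e) - A * C'), hQ1,
    (d.hdv Q q' hQq).trans (Dvd.intro _ rfl), ?_, hWQ, ?_⟩
  · rw [hx0, ← mul_assoc, hxQ]
    have := d.hu hQq
    have a0 := d.hu1 Q hQ1
    calc |D * det * θ - N| * d.u Q ≤ D * (|(B : ℝ)| * |(B' : ℝ)|) * (2 * W) * d.u q' := by gcongr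
      _ ≤ κ := by linarith
  · rw [hy0]
    set x0 : ℝ := N / (D * det) with hx0d
    set y0 : ℝ := (A' * (C * e) - A * C') / (D * det) with hy0d
    have l0 : A * x0 + B * y0 + (C * e) / D = 0 := by
      rw [hx0d, hy0d, hN]
      have : (det : ℝ) = A * B' - A' * B := by rw [hdet]; push_cast; ring
      field_simp
      push_cast
      rw [this]; ring
    have l3 : |(B : ℝ)| * |z - y0| = |(A : ℝ)| * |θ - x0| := by
      rw [← abs_mul, ← abs_mul, ← abs_neg]; congr 1; linarith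
    have l4 : |z - y0| * Q ≤ d.u q' * (D * |(B' : ℝ)| * (2 * W)) := by
      refine le_of_mul_le_mul_left ?_ (show 0 < |(B : ℝ)| by linarith)
      calc |(B : ℝ)| * (|z - y0| * Q) = |(A : ℝ)| * (|θ - x0| * Q) := by
            rw [← mul_assoc, l3, mul_assoc]
        _ ≤ d.u q' * (D * (|(B : ℝ)| * |(B' : ℝ)|) * (2 * W)) := by
            rw [hxQ]; gcongr
        _ = _ := by ring
    have l5 : |z - y0| * (Q * d.v Q) ≤ 4 * d.M ^ 2 * η * (κ * T) := by
      calc |z - y0| * (Q * d.v Q) = |z - y0| * Q * d.v Q := by ring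
        _ ≤ d.u q' * (D * |(B' : ℝ)| * (2 * W)) * (2 * d.M * η * d.v q') := by gcongr
        _ = 4 * d.M * η * (D * d.u q' * d.v q') * (W * |(B' : ℝ)|) := by ring
        _ ≤ 4 * d.M * η * (d.M * q') * (W * |(B' : ℝ)|) := by gcongr
        _ = 4 * d.M ^ 2 * η * (W * (|(B' : ℝ)| * q')) := by ring
        _ ≤ _ := by gcongr
    have l6 : |ζ - y0| ≤ W + |z - y0| := (abs_sub_le ζ z y0).trans (by linarith)
    calc |ζ - y0| * (Q * d.v Q) ≤ (W + |z - y0|) * (Q * d.v Q) := by gcongr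
      _ = W * (Q * d.v Q) + |z - y0| * (Q * d.v Q) := by ring
      _ ≤ κ * (12 * d.M ^ 2 * η * T) := by linarith
      _ < κ * 1 := mul_lt_mul_of_pos_left hsm hκ0
      _ = κ := by ring

end Pool.Agent.H931Z.Mix
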