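import Mathlib
import Pool.Agent.H931Z.MixTwo

set_option autoImplicit false

namespace Pool.Agent.H931Z.Mix

open Pool.Agent.H404Z.ULC

/-- the two-dimensional set on the vertical line through θ -/
def S2 (d : Data) (θ : ℝ) : Set ℝ :=
  {y | ∃ κ : ℝ, 0 < κ ∧ ∀ q : ℕ, 1 ≤ q → d.δ q ∣ q → ∀ p r : ℤ,
    κ ≤ |θ - p / q| * (q * d.u q) ∨ κ ≤ |y - r / q| * (q * d.v q)}

theorem same_dyadic {q q' a : ℕ} (hq : 1 ≤ q) (h1 : q ≤ q') (h2 : q' < 2 ^ a * q)
    (h : Nat.log 2 q % (a + 1) = Nat.log 2 q' % (a + 1)) : q' ≤ 2 * q := by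
  have a1 : Nat.log 2 q ≤ Nat.log 2 q' := Nat.log_mono_right h1
  have a2 := Nat.lt_pow_succ_log_self (b := 2) (by norm_num) q
  have a3 : Nat.log 2 q' < a + Nat.log 2 q + 1 := by
    refine Nat.log_lt_of_lt_pow (by omega) (h2.trans_le ?_)
    rw [add_assoc, pow_add]
    exact Nat.mul_le_mul_left _ a2.le
  have a4 : Nat.log 2 q = Nat.log 2 q' := by
    have := (Nat.modEq_iff_dvd' a1).1 h
    have h0 := Nat.eq_zero_of_dvd_of_lt this (by omega)
    omega
  have a5 := Nat.lt_pow_succ_log_self (b := 2) (by norm_num) q'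
  have a6 := Nat.pow_log_le_self 2 (show q ≠ 0 by omega)
  rw [← a4, pow_succ] at a5
  omega

theorem cw_S2 (d : Data) {θ : ℝ} (hθ : θ ∈ S1 d.δ d.u) (lam : ℕ) (hlam4 : 4 ≤ lam)
    (hlam : ∀ (R : ℝ), 1 ≤ R → ∀ s q0 q' : ℕ, (q0 : ℝ) ≤ 2 * d.M * (1 / (R ^ lam) ^ s) * q' →
      d.v q0 ≤ 2 * d.M * (1 / (R ^ 4) ^ s) * d.v q') : CW (S2 d θ) := by
  obtain ⟨c, hc0, hθ⟩ := hθ
  obtain ⟨a0, ha0⟩ := exists_nat_ge (72 * d.M ^ 2)
  refine ⟨a0 + lam + 2, fun ρ hρ => ?_⟩
  set R : ℝ := ((2 ^ ρ : ℕ) : ℝ) with hR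
  have hR1 : 1 < R := by
    rw [hR]; exact_mod_cast Nat.one_lt_two_pow (by omega)
  have hR0 : 0 < R := by linarith
  have hRM : 72 * d.M ^ 2 < R := by
    have h1 : a0 < 2 ^ ρ := lt_of_le_of_lt (by omega) Nat.lt_two_pow_self
    have h2 : (a0 : ℝ) < R := by rw [hR]; exact_mod_cast h1
    linarith
  have M1 := d.hM1
  set κ : ℝ := min (c / 2) (1 / (30 * R ^ 2)) with hκ
  have hκ0 : 0 < κ := lt_min (by positivity) (by positivity)
  have hκc : κ < c := lt_of_le_of_lt (min_le_left _ _) (by linarith)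
  have hκR : κ * R ^ 2 ≤ 1 / 30 := by
    have : κ ≤ 1 / (30 * R ^ 2) := min_le_right _ _
    rw [le_div_iff₀ (by positivity)] at this
    linarith
  have hR2 : R ≤ R ^ 2 := by nlinarith
  have hκR1 : κ * R ≤ 1 / 30 := le_trans (mul_le_mul_of_nonneg_left hR2 hκ0.le) hκR
  have hκ1 : κ ≤ 1 / 30 := le_trans (by simpa using mul_le_mul_of_nonneg_left hR1.le hκ0.le) hκR1
  set G : ℝ := R ^ lam with hG
  have hG1 : 1 < G := one_lt_pow₀ hR1 (by omega)
  set a := ρ * (1 + lam) with ha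
  let Y : Fin (a + 1) → ℕ → ℕ → Set ℝ := fun l n m => {y | ∃ (q : ℕ) (p r A B C : ℤ),
    Pt d θ κ q p r A B C ∧ 2 * κ * R ^ (n + 1) ≤ |(B : ℝ)| * q ∧
    |(B : ℝ)| * q < 2 * κ * R ^ (n + 2) ∧ |(B : ℝ)| * G ^ (n - m) ≤ d.v q ∧
    d.v q < |(B : ℝ)| * G ^ (n - m + 1) ∧ Nat.log 2 q % (a + 1) = l ∧ y = r / q}
  have hmem : ∀ (q : ℕ) (p r A B C : ℤ), Pt d θ κ q p r A B C → ∃ l n m, m ≤ n ∧
      2 * κ * R ^ (n + 1) ≤ |(B : ℝ)| * q ∧ (r : ℝ) / q ∈ Y l n m := by
    intro q p r A B C h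
    have b1 := int_abs_ge h.hB0
    have q1 : (1 : ℝ) ≤ q := by exact_mod_cast h.hq
    have hH : (q : ℝ) ≤ |(B : ℝ)| * q := by simpa using mul_le_mul_of_nonneg_right b1 (by linarith)
    obtain ⟨n, h1, h2⟩ := level (x := |(B : ℝ)| * q) hR1 (c := 2 * κ) (by positivity)
      (by linarith)
    obtain ⟨s, h3, h4⟩ := exists_nat_pow_near (x := d.v q / |(B : ℝ)|) (y := G)
      (by rw [le_div_iff₀ (by linarith)]; simpa using h.hB) hG1
    rw [le_div_iff₀ (by linarith)] at h3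
    rw [div_lt_iff₀ (by linarith)] at h4
    have hs : s ≤ n := by
      have a1 : R ^ s ≤ G ^ s := pow_le_pow_left₀ hR0.le (by
        rw [hG]; exact le_self_pow₀ hR1.le (by omega)) s
      have a2 : G ^ s ≤ G ^ s * |(B : ℝ)| := by
        simpa using mul_le_mul_of_nonneg_left b1 (show 0 ≤ G ^ s by positivity)
      have a3 : 2 * κ * R ^ (n + 2) ≤ R ^ n := by
        calc 2 * κ * R ^ (n + 2) = R ^ n * (2 * (κ * R ^ 2)) := by ring
          _ ≤ R ^ n * 1 := mul_le_mul_of_nonneg_left (by linarith) (by positivity)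
          _ = _ := by ring
      have a4 := d.hvq q h.hq
      have a5 : R ^ s < R ^ n := by linarith
      exact ((pow_lt_pow_iff_right₀ hR1).1 a5).le
    refine ⟨⟨Nat.log 2 q % (a + 1), Nat.mod_lt _ (by omega)⟩, n, n - s, by omega, h1,
      q, p, r, A, B, C, h, h1, h2, ?_, ?_, rfl, rfl⟩
    · rw [show n - (n - s) = s by omega]; linarith
    · rw [show n - (n - s) = s by omega]; linarith
  have core : ∀ l n m ζ, m ≤ n → Avoid (2 ^ ρ) Y m ζ →
      ∀ (q : ℕ) (p r A B C : ℤ) (q' : ℕ) (p' r' A' B' C' : ℤ), q ≤ q' →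
      Pt d θ κ q p r A B C → 2 * κ * R ^ (n + 1) ≤ |(B : ℝ)| * q →
      |(B : ℝ)| * q < 2 * κ * R ^ (n + 2) → |(B : ℝ)| * G ^ (n - m) ≤ d.v q →
      Nat.log 2 q % (a + 1) = l →
      Pt d θ κ q' p' r' A' B' C' → 2 * κ * R ^ (n + 1) ≤ |(B' : ℝ)| * q' →
      |(B' : ℝ)| * q' < 2 * κ * R ^ (n + 2) → |(B' : ℝ)| * G ^ (n - m) ≤ d.v q' →
      d.v q' < |(B' : ℝ)| * G ^ (n - m + 1) → Nat.log 2 q' % (a + 1) = l →
      |ζ - r / q| ≤ 2 / R ^ m → |ζ - r' / q'| ≤ 2 / R ^ m →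
      |(r : ℝ) / q - r' / q'| ≤ 1 / R ^ (n + 1) := by
    intro l n m ζ hm hav q p r A B C q' p' r' A' B' C' hqq h l1 l2 c1 e1 h' l1' l2' c1' c2' e1'
      hy hy'
    obtain ⟨s, rfl⟩ : ∃ s, n = m + s := ⟨n - m, by omega⟩
    rw [show m + s - m = s by omega] at c1 c1' c2'
    have q1 : (1 : ℝ) ≤ q := by exact_mod_cast h.hq
    have q1' : (1 : ℝ) ≤ q' := by exact_mod_cast h'.hq
    have b1 := int_abs_ge h.hB0
    have b1' := int_abs_ge h'.hB0
    have v1' := d.hv1 q' h'.hq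
    have hPm : 0 < R ^ m := by positivity
    have hPn : 0 < R ^ (m + s + 1) := by positivity
    have h2q : q' ≤ 2 * q := by
      refine same_dyadic (a := a) h.hq hqq ?_ (e1.trans e1'.symm)
      have a1 : (q' : ℝ) * d.v q' < R * G * q * d.v q' := by
        calc (q' : ℝ) * d.v q' ≤ q' * (|(B' : ℝ)| * G ^ (s + 1)) := by gcongr
          _ = |(B' : ℝ)| * q' * G ^ (s + 1) := by ring
          _ < 2 * κ * R ^ (m + s + 2) * G ^ (s + 1) := by gcongr
          _ = R * G * (2 * κ * R ^ (m + s + 1)) * G ^ s := by ring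
          _ ≤ R * G * (|(B : ℝ)| * q) * G ^ s := by gcongr
          _ = R * G * q * (|(B : ℝ)| * G ^ s) := by ring
          _ ≤ R * G * q * d.v q' := by
            have := c1.trans (d.hv hqq)
            gcongr
      have a2 : (q' : ℝ) < R * G * q := lt_of_mul_lt_mul_right a1 (by linarith)
      have a3 : R * G = ((2 ^ a : ℕ) : ℝ) := by
        rw [hG, hR, ha]; push_cast; rw [← pow_mul, ← pow_add]; congr 1; ring
      rw [a3] at a2
      exact_mod_cast a2
    have fin : ∀ x H : ℝ, 0 ≤ x → x * H ≤ κ → 2 * κ * R ^ (m + s + 1) ≤ H →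
        x ≤ 1 / R ^ (m + s + 1) / 2 := by
      intro x H hx h1 h2
      rw [le_div_iff₀ (by norm_num), le_div_iff₀ hPn]
      refine le_of_mul_le_mul_left ?_ hκ0
      calc κ * (x * 2 * R ^ (m + s + 1)) = x * (2 * κ * R ^ (m + s + 1)) := by ring
        _ ≤ x * H := by gcongr
        _ ≤ _ := by linarith
    rcases Nat.eq_zero_or_pos s with rfl | hs
    · have hd : |(r : ℝ) / q - r' / q'| ≤ 4 / R ^ m := by
        have := abs_sub_le ((r : ℝ) / q) ζ (r' / q')
        rw [abs_sub_comm _ ζ] at this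
        have e : 4 / R ^ m = 2 / R ^ m + 2 / R ^ m := by ring
        linarith
      have := generic h h' hqq h2q (by
        have : |(r : ℝ) / q - r' / q'| * (|(B : ℝ)| * q) ≤ 8 * (κ * R ^ 2) := by
          calc _ ≤ 4 / R ^ m * (2 * κ * R ^ (m + 0 + 2)) := by gcongr
            _ = _ := by field_simp; ring
        linarith)
      have := fin (|(r : ℝ) / q - r' / q'| / 2) _ (by positivity) (by linarith) l1
      linarith
    · have z1 := fin _ _ (abs_nonneg _) h.zz_close l1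
      have z2 := fin _ _ (abs_nonneg _) h'.zz_close l1'
      by_cases hne : zz d θ q A B C = zz d θ q' A' B' C'
      · have := abs_sub_le ((r : ℝ) / q) (zz d θ q A B C) (r' / q')
        rw [abs_sub_comm _ (zz d θ q A B C)] at this
        rw [← hne] at z2
        linarith
      exfalso
      have hle : 1 / R ^ (m + s + 1) ≤ 1 / R ^ m :=
        one_div_le_one_div_of_le hPm (pow_le_pow_right₀ hR1.le (by omega))
      have hpos : 0 < 1 / R ^ (m + s + 1) := by positivity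
      have e3 : 3 / R ^ m = 2 / R ^ m + 1 / R ^ m := by ring
      have w1 : |ζ - zz d θ q A B C| ≤ 3 / R ^ m := by
        have := abs_sub_le ζ ((r : ℝ) / q) (zz d θ q A B C)
        rw [abs_sub_comm ((r : ℝ) / q)] at this
        linarith
      have w2 : |ζ - zz d θ q' A' B' C'| ≤ 3 / R ^ m := by
        have := abs_sub_le ζ ((r' : ℝ) / q') (zz d θ q' A' B' C')
        rw [abs_sub_comm ((r' : ℝ) / q')] at this
        linarith
      have hW : ∀ H : ℝ, H < 2 * κ * R ^ (m + s + 2) → 3 / R ^ m * H ≤ κ * (6 * R ^ (s + 2)) := by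
        intro H hH
        calc 3 / R ^ m * H ≤ 3 / R ^ m * (2 * κ * R ^ (m + s + 2)) := by gcongr
          _ = _ := by field_simp; ring
      have hGs : 0 < G ^ s := by positivity
      have hsm : 12 * d.M ^ 2 * (1 / (R ^ 4) ^ s) * (6 * R ^ (s + 2)) < 1 := by
        have a1 : R * R ^ (s + 2) ≤ (R ^ 4) ^ s := by
          rw [← pow_mul, ← pow_succ']
          exact pow_le_pow_right₀ hR1.le (by omega)
        have a2 : 72 * d.M ^ 2 * R ^ (s + 2) < R * R ^ (s + 2) := by gcongr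
        have e : 12 * d.M ^ 2 * (1 / (R ^ 4) ^ s) * (6 * R ^ (s + 2)) =
            72 * d.M ^ 2 * R ^ (s + 2) / (R ^ 4) ^ s := by ring
        rw [e, div_lt_one (by positivity)]
        linarith
      obtain ⟨Q, p0, r0, hQ, hQd, hQx, hQW, hQy⟩ := special h h' hqq h2q (E := 1 / G ^ s)
        (η := 1 / (R ^ 4) ^ s) (W := 3 / R ^ m) (T := 6 * R ^ (s + 2)) (ζ := ζ) hκ0
        (one_div_le_one_div_of_le (by positivity)
          (pow_le_pow_left₀ (by positivity) (pow_le_pow_right₀ hR1.le hlam4) s))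
        (by have := one_le_pow₀ (n := s + 2) hR1.le; linarith) (by linarith)
        (by rw [one_div, le_inv_mul_iff₀ hGs]; linarith)
        (by rw [one_div, le_inv_mul_iff₀ hGs]; linarith)
        (fun q0 h0 => hlam R hR1.le s q0 q' h0) w1 w2 (hW _ l2) (hW _ l2') hsm hne
      obtain ⟨A0, B0, C0, h0⟩ := exists_pt hθ hκc hQ hQd p0 r0 hQx
      obtain ⟨l0, n0, m0, hm0, lv0, hY0⟩ := hmem _ _ _ _ _ _ h0
      have Q0 : (0 : ℝ) < Q := by exact_mod_cast hQ
      have hH0 : |(B0 : ℝ)| * Q ≤ Q * d.v Q := by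
        rw [mul_comm]; have := h0.hB; gcongr
      have hQv : Q * d.v Q ≤ κ * R ^ m := by
        have a1 : 3 / R ^ m * (Q * d.v Q) ≤ κ * 3 := by
          calc _ ≤ _ := hQW
            _ = κ * (2 / 3 * (12 * d.M ^ 2 * (1 / (R ^ 4) ^ s) * (6 * R ^ (s + 2)))) := by ring
            _ ≤ κ * 3 := mul_le_mul_of_nonneg_left (by linarith) hκ0.le
        rw [div_mul_eq_mul_div, div_le_iff₀ hPm] at a1
        linarith
      have hn0 : n0 < m := by
        have a1 : κ * R ^ (n0 + 1) ≤ κ * R ^ m := by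
          have : 0 < κ * R ^ (n0 + 1) := by positivity
          linarith
        have a2 := le_of_mul_le_mul_left a1 hκ0
        have := (pow_le_pow_iff_right₀ hR1).1 a2
        omega
      have hav' := hav l0 n0 m0 hn0 hm0 _ hY0
      rw [← hR] at hav'
      have : 2 * κ ≤ |ζ - r0 / Q| * (Q * d.v Q) := by
        calc 2 * κ = 1 / R ^ (n0 + 1) * (2 * κ * R ^ (n0 + 1)) := by field_simp
          _ ≤ |ζ - r0 / Q| * (Q * d.v Q) :=
            mul_le_mul hav' (lv0.trans hH0) (by positivity) (abs_nonneg _)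
      linarith
  refine ⟨Fin (a + 1), inferInstance, Y, ?_, ?_, ?_⟩
  · rw [Fintype.card_fin, ha]; nlinarith
  · rintro l n m ζ hm hav y ⟨q, p, r, A, B, C, h, l1, l2, c1, c2, e1, rfl⟩ y'
      ⟨q', p', r', A', B', C', h', l1', l2', c1', c2', e1', rfl⟩ hy hy'
    rcases le_total q q' with hqq | hqq
    · exact core l n m ζ hm hav _ _ _ _ _ _ _ _ _ _ _ _ hqq h l1 l2 c1 e1 h' l1' l2' c1' c2' e1'
        hy hy'
    · rw [abs_sub_comm]
      exact core l n m ζ hm hav _ _ _ _ _ _ _ _ _ _ _ _ hqq h' l1' l2' c1' e1' h l1 l2 c1 c2 e1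
        hy' hy
  · intro ζ hζ
    refine ⟨κ, hκ0, fun q hq hdiv p r => ?_⟩
    by_cases hx : κ ≤ |θ - p / q| * (q * d.u q)
    · exact Or.inl hx
    right
    obtain ⟨A, B, C, h⟩ := exists_pt hθ hκc hq hdiv p r (not_le.1 hx).le
    obtain ⟨l, n, m, hm, lv, hY⟩ := hmem _ _ _ _ _ _ h
    have hav := hζ (n + 1) l n m (by omega) hm _ hY
    rw [← hR] at hav
    have Q0 : (0 : ℝ) < q := by exact_mod_cast hq
    have hH0 : |(B : ℝ)| * q ≤ q * d.v q := by
      rw [mul_comm]; have := h.hB; gcongr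
    have : 2 * κ ≤ |ζ - r / q| * (q * d.v q) := by
      calc 2 * κ = 1 / R ^ (n + 1) * (2 * κ * R ^ (n + 1)) := by field_simp
        _ ≤ |ζ - r / q| * (q * d.v q) :=
          mul_le_mul hav (lv.trans hH0) (by positivity) (abs_nonneg _)
    linarith

end Pool.Agent.H931Z.Mix
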