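import Mathlib
import Pool.Agent.H931Z.MixCW

set_option autoImplicit false

namespace Pool.Agent.H931Z.Mix

/-- partial products -/
def DD (d : ℕ → ℕ) (n : ℕ) : ℕ := ∏ m ∈ Finset.range n, d m

theorem DD_ge {d : ℕ → ℕ} (hd : ∀ n, 2 ≤ d n) (n : ℕ) : n + 1 ≤ DD d n := by
  induction n with
  | zero => simp [DD]
  | succ n ih =>
    have : DD d (n + 1) = DD d n * d n := Finset.prod_range_succ _ _
    have := hd n
    nlinarith

theorem DD_dvd (d : ℕ → ℕ) {n n' : ℕ} (h : n ≤ n') : DD d n ∣ DD d n' :=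
  Finset.prod_dvd_prod_of_subset _ _ _ (Finset.range_mono h)

theorem ex_DD {d : ℕ → ℕ} (hd : ∀ n, 2 ≤ d n) (i : ℝ) (q : ℕ) :
    ∃ n, (q : ℝ) ^ i ≤ DD d n := by
  obtain ⟨n, hn⟩ := exists_nat_ge ((q : ℝ) ^ i)
  refine ⟨n, hn.trans ?_⟩
  have := DD_ge hd n
  exact_mod_cast (by omega : n ≤ DD d n)

open Classical in
/-- the first partial product above q ^ i -/
noncomputable def del {d : ℕ → ℕ} (hd : ∀ n, 2 ≤ d n) (i : ℝ) (q : ℕ) : ℕ :=
  DD d (Nat.find (ex_DD hd i q))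

theorem del_ge {d : ℕ → ℕ} (hd : ∀ n, 2 ≤ d n) (i : ℝ) (q : ℕ) : (q : ℝ) ^ i ≤ del hd i q := by
  classical
  exact Nat.find_spec (ex_DD hd i q)

theorem del_dvd {d : ℕ → ℕ} (hd : ∀ n, 2 ≤ d n) (i : ℝ) (q n : ℕ) (h : (q : ℝ) ^ i ≤ DD d n) :
    del hd i q ∣ DD d n := by
  classical
  exact DD_dvd d (Nat.find_min' (ex_DD hd i q) h)

theorem del_le {d : ℕ → ℕ} (hd : ∀ n, 2 ≤ d n) {M : ℕ} (hM : ∀ n, d n ≤ M) {i : ℝ} (hi : 0 ≤ i)
    {q : ℕ} (hq : 1 ≤ q) : (del hd i q : ℝ) ≤ M * (q : ℝ) ^ i := by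
  classical
  have hq' : (1 : ℝ) ≤ q := by exact_mod_cast hq
  have h1 : 1 ≤ (q : ℝ) ^ i := Real.one_le_rpow hq' hi
  have hM1 : (1 : ℝ) ≤ M := by
    have := hd 0; have := hM 0; exact_mod_cast (by omega : 1 ≤ M)
  unfold del
  rcases h : Nat.find (ex_DD hd i q) with _ | n
  · simp only [DD, Finset.range_zero, Finset.prod_empty, Nat.cast_one]; nlinarith
  · have h2 := Nat.find_min (ex_DD hd i q) (show n < Nat.find (ex_DD hd i q) by omega)
    have h3 : DD d (n + 1) = DD d n * d n := Finset.prod_range_succ _ _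
    have h4 : (d n : ℝ) ≤ M := by exact_mod_cast hM n
    rw [h3]; push_cast
    rw [mul_comm]
    exact mul_le_mul h4 (not_le.1 h2).le (by positivity) (by positivity)

/-- the data attached to a triple of exponents -/
noncomputable def mk {d : ℕ → ℕ} (hd : ∀ n, 2 ≤ d n) {M : ℕ} (hM : ∀ n, d n ≤ M) {i j k : ℝ}
    (hi : 0 ≤ i) (hj : 0 ≤ j) (hk : 0 ≤ k) (hs : i + j + k = 1) : Data where
  δ := del hd i
  u q := (q : ℝ) ^ j
  v q := (q : ℝ) ^ k
  M := M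
  hM1 := by have := hd 0; have := hM 0; exact_mod_cast (by omega : 1 ≤ M)
  hδ q := le_trans (by omega) (DD_ge hd _)
  hdv q q' h := del_dvd hd i q _ (le_trans
    (Real.rpow_le_rpow (by positivity) (by exact_mod_cast h) hi) (del_ge hd i q'))
  hu q q' h := Real.rpow_le_rpow (by positivity) (by exact_mod_cast h) hj
  hv q q' h := Real.rpow_le_rpow (by positivity) (by exact_mod_cast h) hk
  hu1 q hq := Real.one_le_rpow (by exact_mod_cast hq) hj
  hv1 q hq := Real.one_le_rpow (by exact_mod_cast hq) hk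
  hvq q hq := by
    simpa using Real.rpow_le_rpow_of_exponent_le (x := (q : ℝ)) (by exact_mod_cast hq)
      (show k ≤ 1 by linarith)
  hM q hq := by
    have q0 : (0 : ℝ) < q := by exact_mod_cast hq
    calc _ ≤ M * (q : ℝ) ^ i * (q : ℝ) ^ j * (q : ℝ) ^ k := by
          have := del_le hd hM hi hq; gcongr
      _ = M * (q : ℝ) ^ (i + j + k) := by rw [Real.rpow_add q0, Real.rpow_add q0]; ring
      _ = _ := by rw [hs, Real.rpow_one]
  hm q hq := by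
    have q0 : (0 : ℝ) < q := by exact_mod_cast hq
    calc (q : ℝ) = (q : ℝ) ^ (i + j + k) := by rw [hs, Real.rpow_one]
      _ = (q : ℝ) ^ i * (q : ℝ) ^ j * (q : ℝ) ^ k := by rw [Real.rpow_add q0, Real.rpow_add q0]
      _ ≤ _ := by have := del_ge hd i q; gcongr

theorem cw_u (d : Data) : CW (S1 d.δ d.u) :=
  cw_S1 d.hM1 d.hδ d.hdv d.hu fun q hq => by
    have h1 := d.hM q hq
    have h2 := d.hv1 q hq
    have h3 := d.hu1 q hq
    have : (d.δ q : ℝ) * d.u q * 1 ≤ d.δ q * d.u q * d.v q := by gcongr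
    linarith

theorem cw_v (d : Data) : CW (S1 d.δ d.v) :=
  cw_S1 d.hM1 d.hδ d.hdv d.hv fun q hq => by
    have h1 := d.hM q hq
    have h2 := d.hv1 q hq
    have h3 := d.hu1 q hq
    have : (d.δ q : ℝ) * 1 * d.v q ≤ d.δ q * d.u q * d.v q := by gcongr
    linarith

theorem cw_two {d : ℕ → ℕ} (hd : ∀ n, 2 ≤ d n) {M : ℕ} (hM : ∀ n, d n ≤ M) {i j k : ℝ}
    (hi : 0 ≤ i) (hj : 0 ≤ j) (hk : 0 ≤ k) (hs : i + j + k = 1) (hk0 : 0 < k) {θ : ℝ}
    (hθ : θ ∈ S1 (mk hd hM hi hj hk hs).δ (mk hd hM hi hj hk hs).u) :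
    CW (S2 (mk hd hM hi hj hk hs) θ) := by
  obtain ⟨lam, hlam⟩ := exists_nat_ge (4 / k)
  rw [div_le_iff₀ hk0] at hlam
  have hk1 : k ≤ 1 := by linarith
  have h4 : 4 ≤ lam := by
    have : (4 : ℝ) ≤ lam := by
      have : (lam : ℝ) * k ≤ lam * 1 := by gcongr
      linarith
    exact_mod_cast this
  refine cw_S2 _ hθ lam h4 fun R hR s q0 q' h => ?_
  have M1 := (mk hd hM hi hj hk hs).hM1
  change (q0 : ℝ) ^ k ≤ _ * (q' : ℝ) ^ k
  set m := (mk hd hM hi hj hk hs).M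
  refine (Real.rpow_le_rpow (by positivity) h hk).trans ?_
  rw [Real.mul_rpow (by positivity) (by positivity), Real.mul_rpow (by positivity) (by positivity)]
  have a1 : (2 * m) ^ k ≤ 2 * m := by
    simpa using Real.rpow_le_rpow_of_exponent_le (x := 2 * m) (by linarith) hk1
  have a2 : (1 / (R ^ lam) ^ s) ^ k ≤ 1 / (R ^ 4) ^ s := by
    rw [Real.div_rpow (by norm_num) (by positivity), Real.one_rpow]
    refine one_div_le_one_div_of_le (by positivity) ?_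
    rw [← pow_mul, ← pow_mul, ← Real.rpow_natCast, ← Real.rpow_natCast,
      ← Real.rpow_mul (by linarith)]
    refine Real.rpow_le_rpow_of_exponent_le hR ?_
    push_cast
    have : (0 : ℝ) ≤ s := s.cast_nonneg
    nlinarith
  gcongr

theorem conv {j κ w : ℝ} {q : ℕ} (hj : 0 < j) (hκ : 0 ≤ κ) (hw : 0 ≤ w)
    (h : κ ≤ w * (q : ℝ) ^ j) : κ ^ (1 / j) ≤ q * w ^ (1 / j) := by
  refine (Real.rpow_le_rpow hκ h (by positivity)).trans (le_of_eq ?_)
  rw [Real.mul_rpow hw (by positivity), ← Real.rpow_mul (by positivity),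
    mul_one_div_cancel hj.ne', Real.rpow_one, mul_comm]

theorem one_dim {δ : ℕ → ℕ} {u : ℕ → ℝ} (hδ : ∀ q, 1 ≤ δ q)
    (hm : ∀ q : ℕ, 1 ≤ q → (q : ℝ) ≤ δ q * u q) {θ : ℝ} (h : θ ∈ S1 δ u) :
    ∃ κ : ℝ, 0 < κ ∧ ∀ q : ℕ, 1 ≤ q → δ q ∣ q → ∀ p : ℤ, κ ≤ |q * θ - p| * u q := by
  obtain ⟨c, hc, h⟩ := h
  refine ⟨c, hc, fun q hq ⟨e, he⟩ p => ?_⟩
  have d1 : (0 : ℝ) < δ q := by exact_mod_cast hδ q
  have q0 : (0 : ℝ) < q := by exact_mod_cast hq
  have he' : (q : ℝ) = δ q * e := by exact_mod_cast he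
  have he1 : e ≠ 0 := by
    intro h0; rw [h0] at he; omega
  have h1 := hm q hq
  have h2 := h q hq e (by exact_mod_cast he1) (by
    simp only [Int.cast_natCast, Nat.abs_cast]
    refine le_of_mul_le_mul_left ?_ d1
    rw [← he']; exact h1) (-p)
  have e1 : (q : ℝ) * θ - p = δ q * (((e : ℤ) : ℝ) * θ + ((-p : ℤ) : ℝ) / δ q) := by
    push_cast
    rw [mul_add, mul_div_cancel₀ _ d1.ne', ← mul_assoc, ← he']; ring
  rw [e1, abs_mul, abs_of_pos d1]
  rw [div_le_iff₀ q0] at h2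
  calc c ≤ _ := h2
    _ ≤ |((e : ℤ) : ℝ) * θ + ((-p : ℤ) : ℝ) / δ q| * (δ q * u q) := by gcongr
    _ = _ := by ring

theorem alt_one {d : ℕ → ℕ} (hd : ∀ n, 2 ≤ d n) {i : ℝ} (hi : 0 < i) {q : ℕ} (hq : 1 ≤ q)
    (h : ∀ n, DD d n ∣ q → (DD d n : ℝ) ≤ (q : ℝ) ^ i) :
    1 ≤ (q : ℝ) * (sInf ((fun n : ℕ => (1 : ℝ) / ((∏ m ∈ Finset.range n, d m : ℕ) : ℝ)) ''
      {n : ℕ | (∏ m ∈ Finset.range n, d m) ∣ q})) ^ (1 / i) := by
  have q0 : (0 : ℝ) < q := by exact_mod_cast hq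
  have hp : 0 < (q : ℝ) ^ i := by positivity
  have h1 : 1 / (q : ℝ) ^ i ≤ sInf ((fun n : ℕ => (1 : ℝ) /
      ((∏ m ∈ Finset.range n, d m : ℕ) : ℝ)) '' {n : ℕ | (∏ m ∈ Finset.range n, d m) ∣ q}) := by
    refine le_csInf ⟨_, 0, by simp, rfl⟩ ?_
    rintro _ ⟨n, hn, rfl⟩
    have : (0 : ℝ) < DD d n := by
      have := DD_ge hd n
      exact_mod_cast (by omega : 0 < DD d n)
    exact one_div_le_one_div_of_le this (h n hn)
  have := conv (κ := 1) (q := q) hi zero_le_one (le_trans (by positivity) h1)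
    (by rwa [div_le_iff₀ hp] at h1)
  rwa [Real.one_rpow] at this

open Classical in
/-- the set of admissible ordinates -/
noncomputable def Sy {d : ℕ → ℕ} (hd : ∀ n, 2 ≤ d n) {M : ℕ} (hM : ∀ n, d n ≤ M) {i j k : ℝ}
    (hi : 0 ≤ i) (hj : 0 ≤ j) (hk : 0 ≤ k) (hs : i + j + k = 1) (θ : ℝ) : Set ℝ :=
  if 0 < j ∧ 0 < k then S2 (mk hd hM hi hj hk hs) θ
  else S1 (mk hd hM hi hj hk hs).δ (mk hd hM hi hj hk hs).v

theorem cw_Sy {d : ℕ → ℕ} (hd : ∀ n, 2 ≤ d n) {M : ℕ} (hM : ∀ n, d n ≤ M) {i j k : ℝ}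
    (hi : 0 ≤ i) (hj : 0 ≤ j) (hk : 0 ≤ k) (hs : i + j + k = 1) {θ : ℝ}
    (hθ : θ ∈ S1 (mk hd hM hi hj hk hs).δ (mk hd hM hi hj hk hs).u) :
    CW (Sy hd hM hi hj hk hs θ) := by
  unfold Sy
  split_ifs with h
  · exact cw_two hd hM hi hj hk hs h.2 hθ
  · exact cw_v _

theorem final {d : ℕ → ℕ} (hd : ∀ n, 2 ≤ d n) {M : ℕ} (hM : ∀ n, d n ≤ M) {i j k : ℝ}
    (hi : 0 ≤ i) (hj : 0 ≤ j) (hk : 0 ≤ k) (hs : i + j + k = 1) {x y : ℝ}
    (hx : x ∈ S1 (mk hd hM hi hj hk hs).δ (mk hd hM hi hj hk hs).u)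
    (hy : y ∈ Sy hd hM hi hj hk hs x) :
    ∃ c : ℝ, 0 < c ∧ ∀ q : ℕ, 0 < q →
      ((q : ℝ) * (if i = 0 then 0 else
          (sInf ((fun n : ℕ => (1 : ℝ) / ((∏ m ∈ Finset.range n, d m : ℕ) : ℝ)) ''
            {n : ℕ | (∏ m ∈ Finset.range n, d m) ∣ q})) ^ (1 / i)) > c ∨
       (q : ℝ) * (if j = 0 then 0 else
          |(q : ℝ) * x - (round ((q : ℝ) * x) : ℝ)| ^ (1 / j)) > c ∨
       (q : ℝ) * (if k = 0 then 0 else
          |(q : ℝ) * y - (round ((q : ℝ) * y) : ℝ)| ^ (1 / k)) > c) := by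
  have main : ∃ κ : ℝ, 0 < κ ∧ ∀ q : ℕ, 1 ≤ q → del hd i q ∣ q → ∀ p r : ℤ,
      i = 1 ∨ (0 < j ∧ κ ≤ |q * x - p| * (q : ℝ) ^ j) ∨ (0 < k ∧ κ ≤ |q * y - r| * (q : ℝ) ^ k) := by
    unfold Sy at hy
    split_ifs at hy with h
    · obtain ⟨κ, hκ, hy⟩ := hy
      refine ⟨κ, hκ, fun q hq hdiv p r => Or.inr ?_⟩
      have q0 : (0 : ℝ) < q := by exact_mod_cast hq
      have e : ∀ (z : ℝ) (p : ℤ) (w : ℝ), |z - p / q| * (q * w) = |q * z - p| * w := by
        intro z p w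
        have : (q : ℝ) * z - p = (z - p / q) * q := by field_simp
        rw [this, abs_mul, abs_of_pos q0]; ring
      rcases hy q hq hdiv p r with h1 | h1
      · exact Or.inl ⟨h.1, by rw [← e]; exact h1⟩
      · exact Or.inr ⟨h.2, by rw [← e]; exact h1⟩
    · rcases hk.lt_or_eq with hk0 | hk0
      · have hj0 : j = 0 := by
          by_contra hne
          exact h ⟨lt_of_le_of_ne hj (Ne.symm hne), hk0⟩
        obtain ⟨κ, hκ, h1⟩ := one_dim (mk hd hM hi hj hk hs).hδ (fun q hq => by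
          have := (mk hd hM hi hj hk hs).hm q hq
          have e : (mk hd hM hi hj hk hs).u q = 1 := by
            change (q : ℝ) ^ j = 1
            rw [hj0, Real.rpow_zero]
          rwa [e, mul_one] at this) hy
        exact ⟨κ, hκ, fun q hq hdiv p r => Or.inr (Or.inr ⟨hk0, h1 q hq hdiv r⟩)⟩
      · rcases hj.lt_or_eq with hj0 | hj0
        · obtain ⟨κ, hκ, h1⟩ := one_dim (mk hd hM hi hj hk hs).hδ (fun q hq => by
            have := (mk hd hM hi hj hk hs).hm q hq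
            have e : (mk hd hM hi hj hk hs).v q = 1 := by
              change (q : ℝ) ^ k = 1
              rw [← hk0, Real.rpow_zero]
            rwa [e, mul_one] at this) hx
          exact ⟨κ, hκ, fun q hq hdiv p r => Or.inr (Or.inl ⟨hj0, h1 q hq hdiv p⟩)⟩
        · exact ⟨1, one_pos, fun _ _ _ _ _ => Or.inl (by linarith)⟩
  obtain ⟨κ, hκ, main⟩ := main
  have p1 : 0 < κ ^ (1 / j) := by positivity
  have p2 : 0 < κ ^ (1 / k) := by positivity
  set c := min 1 (min (κ ^ (1 / j)) (κ ^ (1 / k))) with hc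
  have c0 : 0 < c := lt_min one_pos (lt_min p1 p2)
  have c1 : c ≤ 1 := min_le_left _ _
  have c2 : c ≤ κ ^ (1 / j) := (min_le_right _ _).trans (min_le_left _ _)
  have c3 : c ≤ κ ^ (1 / k) := (min_le_right _ _).trans (min_le_right _ _)
  refine ⟨c / 2, by positivity, fun q hq => ?_⟩
  by_cases hdiv : del hd i q ∣ q
  · rcases main q hq hdiv (round ((q : ℝ) * x)) (round ((q : ℝ) * y)) with h | h | h
    · left
      rw [if_neg (by rw [h]; norm_num)]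
      have := alt_one hd (i := i) (by rw [h]; norm_num) hq (fun n hn => by
        rw [h, Real.rpow_one]; exact_mod_cast Nat.le_of_dvd hq hn)
      linarith
    · right; left
      rw [if_neg h.1.ne']
      have := conv h.1 hκ.le (abs_nonneg _) h.2
      linarith
    · right; right
      rw [if_neg h.1.ne']
      have := conv h.1 hκ.le (abs_nonneg _) h.2
      linarith
  · left
    have hi0 : i ≠ 0 := by
      rintro rfl
      apply hdiv
      refine (del_dvd hd 0 q 0 (by simp [DD])).trans (by simp [DD])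
    rw [if_neg hi0]
    have := alt_one hd (lt_of_le_of_ne hi (Ne.symm hi0)) hq (fun n hn => by
      by_contra hlt
      exact hdiv ((del_dvd hd i q n (not_le.1 hlt).le).trans hn))
    linarith

end Pool.Agent.H931Z.Mix
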