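import Mathlib

/-!
Definitions for weighted bilinear ergodic averages: Gowers norms on an interval, admissible
weights, the Fourier approximation condition.
-/

set_option autoImplicit false
open Filter Topology Finset

namespace Pool.Agent.H931Z.Wt

/-- `e x = exp (2 pi i x)`. -/
noncomputable def e (x : ℝ) : ℂ := Complex.exp (2 * Real.pi * Complex.I * x)

/-- The sum over all `s`-dimensional cubes `(x, h)` of the product over the vertices `ω` of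
`C^|ω| (1_[N] F) (x + ω · h)`, with `C` complex conjugation and `[N] = {1, ..., N}`. All cubes
with vertices in `[N]` have `x` in `[1, N]` and the `h i` in `[-N, N]`. This is the `2^s`-th
power of the `U^s(ℤ)` norm of `1_[N] F`. -/
noncomputable def cubeSum (s N : ℕ) (F : ℤ → ℂ) : ℂ :=
  ∑ x ∈ Icc (1 : ℤ) N, ∑ h ∈ Fintype.piFinset (fun _ : Fin s => Icc (-(N : ℤ)) N),
    ∏ ω : Finset (Fin s), (starRingEnd ℂ)^[ω.card]
      (if x + ∑ i ∈ ω, h i ∈ Icc (1 : ℤ) N then F (x + ∑ i ∈ ω, h i) else 0)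

/-- The Gowers norm `U^s([N])`: the `U^s(ℤ)` norm of `1_[N] F` divided by that of `1_[N]`. -/
noncomputable def gowers (s N : ℕ) (F : ℤ → ℂ) : ℝ :=
  (‖cubeSum s N F‖ / ‖cubeSum s N (fun _ => 1)‖) ^ ((1 : ℝ) / 2 ^ s)

/-- The sum of `S (a / q) e (n a / q)` over residues `0 ≤ a < q` coprime to `q`. -/
noncomputable def arc (S : ℚ → ℂ) (q : ℕ) (n : ℤ) : ℂ :=
  ∑ a ∈ (range q).filter (fun a => Nat.Coprime a q), S ((a : ℚ) / q) * e (n * a / q)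

/-- The major-arc approximant, the sum of `arc S q` over `1 ≤ q ≤ M`. -/
noncomputable def major (S : ℚ → ℂ) (M : ℕ) (n : ℤ) : ℂ := ∑ q ∈ Icc 1 M, arc S q n

/-- `w_Q`, the sum of `arc S q` over `Q / 2 < q ≤ Q`. -/
noncomputable def wQ (S : ℚ → ℂ) (Q : ℕ) (n : ℤ) : ℂ :=
  ∑ q ∈ (Icc 1 Q).filter (fun q => Q < 2 * q), arc S q n

/-- The sum of `w_Q` over the powers of two `Q = 2 ^ j ≤ M`. -/
noncomputable def dyadicMajor (S : ℚ → ℂ) (M : ℕ) (n : ℤ) : ℂ :=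
  ∑ j ∈ (range (M + 1)).filter (fun j => 2 ^ j ≤ M), wQ S (2 ^ j) n

/-- Upper normalization: the averages of `|w|` over long integer intervals
`I = [a, a + L)` with `0 ∈ 10 I` are bounded. -/
def UpperNormalized (w : ℤ → ℂ) : Prop :=
  ∃ C : ℝ, ∃ L₀ : ℕ, ∀ L : ℕ, L₀ ≤ L → ∀ a : ℤ, |(a : ℝ) + L / 2| ≤ 5 * L →
    (1 / (L : ℝ)) * ∑ n ∈ Ico a (a + L), ‖w n‖ ≤ C

/-- Major-arc approximation with data `S` and `M`: `|S (a / q)| ≤ C q ^ (o(1) - 1)`,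
`M N ≤ N ^ o(1)`, and the `U^s([N])` distance from `w` to the approximant is at most
`C (log N) ^ (-ν / 2 ^ s)` for some `ν > 4`, `s ≥ 3`. -/
def MajorArc (w : ℤ → ℂ) (S : ℚ → ℂ) (M : ℕ → ℕ) : Prop :=
  ∃ (C ν : ℝ) (s : ℕ), 4 < ν ∧ 3 ≤ s ∧
    (∃ ε : ℕ → ℝ, Tendsto ε atTop (𝓝 0) ∧
      ∀ x : ℚ, ‖S x‖ ≤ C * (x.den : ℝ) ^ (ε x.den - 1)) ∧
    (∃ δ : ℕ → ℝ, Tendsto δ atTop (𝓝 0) ∧ ∀ᶠ N : ℕ in atTop, (M N : ℝ) ≤ (N : ℝ) ^ δ N) ∧
    ∀ᶠ N : ℕ in atTop,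
      gowers s N (fun n => w n - major S (M N) n) ≤ C * Real.log N ^ (-ν / 2 ^ s)

/-- The Fourier approximation condition with data `S` and `M`. -/
def FourierApprox (w : ℤ → ℂ) (S : ℚ → ℂ) (M : ℕ → ℕ) : Prop :=
  ∃ C c : ℝ, 0 < c ∧ ∀ᶠ N : ℕ in atTop, ∀ β : ℝ,
    ‖(1 / (N : ℂ)) * ∑ n ∈ Icc (1 : ℤ) N, (w n - dyadicMajor S (M N) n) * e (-(n * β))‖ ≤
      C * (N : ℝ) ^ (-c)

/-- The weighted bilinear average `B_{w,N}(f, g)(x)`. -/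
noncomputable def bilin {X : Type} [MeasurableSpace X] (T : X ≃ᵐ X) (w : ℤ → ℂ) (f g : X → ℂ)
    (N : ℕ) (x : X) : ℂ :=
  (1 / (N : ℂ)) * ∑ n ∈ Icc 1 N, w n * f (T^[n] x) * g (T.symm^[n] x)

end Pool.Agent.H931Z.Wt
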