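import Mathlib
import Pool.Agent.H931Z.WtDefs

set_option autoImplicit false
open Filter Topology Finset

namespace Pool.Agent.H931Z.Wt

/-- integers with at most d ternary digits, all 0 or 1 -/
def D : ℕ → Finset ℤ
  | 0 => {0}
  | d + 1 => (D d).image (fun m => 3 * m) ∪ (D d).image (fun m => 3 * m + 1)

theorem mem_D_succ {d : ℕ} {n : ℤ} : n ∈ D (d + 1) ↔ ∃ m ∈ D d, n = 3 * m ∨ n = 3 * m + 1 := by
  simp only [D, mem_union, mem_image]
  constructor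
  · rintro (⟨m, hm, rfl⟩ | ⟨m, hm, rfl⟩)
    · exact ⟨m, hm, Or.inl rfl⟩
    · exact ⟨m, hm, Or.inr rfl⟩
  · rintro ⟨m, hm, rfl | rfl⟩
    · exact Or.inl ⟨m, hm, rfl⟩
    · exact Or.inr ⟨m, hm, rfl⟩

theorem card_D (d : ℕ) : (D d).card ≤ 2 ^ d := by
  induction d with
  | zero => simp [D]
  | succ d ih =>
    refine (card_union_le _ _).trans ?_
    have h1 := card_image_le (s := D d) (f := fun m : ℤ => 3 * m)
    have h2 := card_image_le (s := D d) (f := fun m : ℤ => 3 * m + 1)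
    rw [pow_succ]; omega

theorem D_bound {d : ℕ} {n : ℤ} (h : n ∈ D d) : 0 ≤ n ∧ 2 * n < 3 ^ d := by
  induction d generalizing n with
  | zero => simp [D] at h; simp [h]
  | succ d ih =>
    obtain ⟨m, hm, h⟩ := mem_D_succ.1 h
    have := ih hm
    have hodd : (3 : ℤ) ^ d % 2 = 1 := Int.odd_iff.1 (Odd.pow (by decide))
    rw [pow_succ]
    omega

theorem zero_mem_D (d : ℕ) : (0 : ℤ) ∈ D d := by
  induction d with
  | zero => simp [D]
  | succ d ih => exact mem_D_succ.2 ⟨0, ih, Or.inl rfl⟩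

theorem D_of_lt {k d : ℕ} {n : ℤ} (h : n ∈ D k) (hn : n < 3 ^ d) : n ∈ D d := by
  induction k generalizing n d with
  | zero => simp [D] at h; rw [h]; exact zero_mem_D d
  | succ k ih =>
    obtain ⟨m, hm, h'⟩ := mem_D_succ.1 h
    have hb := D_bound hm
    cases d with
    | zero =>
      have : n = 0 := by simp at hn; omega
      rw [this]; exact zero_mem_D 0
    | succ d =>
      rw [pow_succ] at hn
      exact mem_D_succ.2 ⟨m, ih hm (by omega), h'⟩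

theorem pow_add_mem_D {d : ℕ} {n : ℤ} (h : n ∈ D d) : 3 ^ d + n ∈ D (d + 1) := by
  induction d generalizing n with
  | zero => simp [D] at h; rw [h]; decide
  | succ d ih =>
    obtain ⟨m, hm, h'⟩ := mem_D_succ.1 h
    refine mem_D_succ.2 ⟨3 ^ d + m, ih hm, ?_⟩
    rw [pow_succ]; omega

theorem midpoint {d : ℕ} {y : ℤ} (h0 : 0 ≤ y) (h1 : y < 3 ^ d) :
    ∃ t ∈ D d, ∃ a ∈ D d, ∃ b ∈ D d, y + t = 2 * a ∧ y - t = 2 * b := by
  induction d generalizing y with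
  | zero => exact ⟨0, by simp [D], 0, by simp [D], 0, by simp [D], by simp at h1; omega,
      by simp at h1; omega⟩
  | succ d ih =>
    rw [pow_succ] at h1
    obtain ⟨t, ht, a, ha, b, hb, e1, e2⟩ := ih (y := y / 3) (by omega) (by omega)
    have : y % 3 = 0 ∨ y % 3 = 1 ∨ y % 3 = 2 := by omega
    rcases this with h | h | h
    · exact ⟨3 * t, mem_D_succ.2 ⟨t, ht, Or.inl rfl⟩, 3 * a, mem_D_succ.2 ⟨a, ha, Or.inl rfl⟩,
        3 * b, mem_D_succ.2 ⟨b, hb, Or.inl rfl⟩, by omega, by omega⟩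
    · exact ⟨3 * t + 1, mem_D_succ.2 ⟨t, ht, Or.inr rfl⟩, 3 * a + 1,
        mem_D_succ.2 ⟨a, ha, Or.inr rfl⟩, 3 * b, mem_D_succ.2 ⟨b, hb, Or.inl rfl⟩,
        by omega, by omega⟩
    · exact ⟨3 * t, mem_D_succ.2 ⟨t, ht, Or.inl rfl⟩, 3 * a + 1,
        mem_D_succ.2 ⟨a, ha, Or.inr rfl⟩, 3 * b + 1, mem_D_succ.2 ⟨b, hb, Or.inr rfl⟩,
        by omega, by omega⟩

/-- the eight cubes in the digit set -/
def P : Finset (ℤ × ℤ × ℤ × ℤ) :=
  {(0, 0, 0, 0), (1, 0, 0, 0), (0, 1, 0, 0), (0, 0, 1, 0), (0, 0, 0, 1), (1, -1, 0, 0),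
    (1, 0, -1, 0), (1, 0, 0, -1)}

theorem mem_P {x a b c : ℤ} (h0 : x = 0 ∨ x = 1) (h1 : x + a = 0 ∨ x + a = 1)
    (h2 : x + b = 0 ∨ x + b = 1) (h3 : x + c = 0 ∨ x + c = 1)
    (h4 : x + a + b = 0 ∨ x + a + b = 1) (h5 : x + a + c = 0 ∨ x + a + c = 1)
    (h6 : x + b + c = 0 ∨ x + b + c = 1) : (x, a, b, c) ∈ P := by
  obtain ⟨y1, rfl⟩ : ∃ y, a = y - x := ⟨x + a, by ring⟩
  obtain ⟨y2, rfl⟩ : ∃ y, b = y - x := ⟨x + b, by ring⟩
  obtain ⟨y3, rfl⟩ : ∃ y, c = y - x := ⟨x + c, by ring⟩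
  simp only [add_sub_cancel] at h1 h2 h3
  rcases h0 with rfl | rfl <;> rcases h1 with rfl | rfl <;> rcases h2 with rfl | rfl <;>
    rcases h3 with rfl | rfl <;> first | decide | (exfalso; revert h4 h5 h6; decide)

theorem par {m0 m1 m2 m4 c0 c1 c2 c4 : ℤ} (h0 : c0 = 0 ∨ c0 = 1) (h1 : c1 = 0 ∨ c1 = 1)
    (h2 : c2 = 0 ∨ c2 = 1) (h4 : c4 = 0 ∨ c4 = 1)
    (h : 3 * m0 + c0 + (3 * m4 + c4) = 3 * m1 + c1 + (3 * m2 + c2)) :
    m0 + m4 = m1 + m2 ∧ c0 + c4 = c1 + c2 := by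
  have a0 : 0 ≤ c0 ∧ c0 ≤ 1 := by omega
  have a1 : 0 ≤ c1 ∧ c1 ≤ 1 := by omega
  have a2 : 0 ≤ c2 ∧ c2 ≤ 1 := by omega
  have a4 : 0 ≤ c4 ∧ c4 ≤ 1 := by omega
  clear h0 h1 h2 h4
  omega

theorem mem_D_succ' {d : ℕ} {n : ℤ} (h : n ∈ D (d + 1)) :
    ∃ m ∈ D d, ∃ c : ℤ, (c = 0 ∨ c = 1) ∧ n = 3 * m + c := by
  obtain ⟨m, hm, h | h⟩ := mem_D_succ.1 h
  · exact ⟨m, hm, 0, Or.inl rfl, by rw [h]; ring⟩
  · exact ⟨m, hm, 1, Or.inr rfl, h⟩

/-- a finite set containing all cubes of D d -/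
def Q : ℕ → Finset (ℤ × ℤ × ℤ × ℤ)
  | 0 => {(0, 0, 0, 0)}
  | d + 1 => (Q d ×ˢ P).image (fun z => (3 * z.1.1 + z.2.1, 3 * z.1.2.1 + z.2.2.1,
      3 * z.1.2.2.1 + z.2.2.2.1, 3 * z.1.2.2.2 + z.2.2.2.2))

theorem card_Q (d : ℕ) : (Q d).card ≤ 8 ^ d := by
  induction d with
  | zero => simp [Q]
  | succ d ih =>
    refine card_image_le.trans ?_
    rw [card_product, pow_succ]
    have : P.card = 8 := by decide
    rw [this]; omega

theorem cube_mem_Q {d : ℕ} {x a b c : ℤ} (h0 : x ∈ D d) (h1 : x + a ∈ D d) (h2 : x + b ∈ D d)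
    (h3 : x + c ∈ D d) (h4 : x + a + b ∈ D d) (h5 : x + a + c ∈ D d) (h6 : x + b + c ∈ D d)
    (h7 : x + a + b + c ∈ D d) : (x, a, b, c) ∈ Q d := by
  induction d generalizing x a b c with
  | zero =>
    simp only [D, mem_singleton] at *
    simp only [Q, mem_singleton, Prod.mk.injEq]
    omega
  | succ d ih =>
    obtain ⟨m0, k0, c0, d0, e0⟩ := mem_D_succ' h0
    obtain ⟨m1, k1, c1, d1, e1⟩ := mem_D_succ' h1
    obtain ⟨m2, k2, c2, d2, e2⟩ := mem_D_succ' h2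
    obtain ⟨m3, k3, c3, d3, e3⟩ := mem_D_succ' h3
    obtain ⟨m4, k4, c4, d4, e4⟩ := mem_D_succ' h4
    obtain ⟨m5, k5, c5, d5, e5⟩ := mem_D_succ' h5
    obtain ⟨m6, k6, c6, d6, e6⟩ := mem_D_succ' h6
    obtain ⟨m7, k7, c7, d7, e7⟩ := mem_D_succ' h7
    obtain ⟨r4, s4⟩ := par (m0 := m0) (m1 := m1) (m2 := m2) (m4 := m4) d0 d1 d2 d4 (by linarith)
    obtain ⟨r5, s5⟩ := par (m0 := m0) (m1 := m1) (m2 := m3) (m4 := m5) d0 d1 d3 d5 (by linarith)
    obtain ⟨r6, s6⟩ := par (m0 := m0) (m1 := m2) (m2 := m3) (m4 := m6) d0 d2 d3 d6 (by linarith)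
    obtain ⟨r7, s7⟩ := par (m0 := m1) (m1 := m4) (m2 := m5) (m4 := m7) d1 d4 d5 d7 (by linarith)
    have q4 : m0 + (m1 - m0) + (m2 - m0) = m4 := by linarith
    have q5 : m0 + (m1 - m0) + (m3 - m0) = m5 := by linarith
    have q6 : m0 + (m2 - m0) + (m3 - m0) = m6 := by linarith
    have q7 : m0 + (m1 - m0) + (m2 - m0) + (m3 - m0) = m7 := by linarith
    have hq := ih (x := m0) (a := m1 - m0) (b := m2 - m0) (c := m3 - m0) k0 (by simpa using k1)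
      (by simpa using k2) (by simpa using k3) (q4 ▸ k4) (q5 ▸ k5) (q6 ▸ k6) (q7 ▸ k7)
    refine mem_image.2 ⟨((m0, m1 - m0, m2 - m0, m3 - m0), (c0, c1 - c0, c2 - c0, c3 - c0)),
      mem_product.2 ⟨hq, ?_⟩, ?_⟩
    · have t4 : c0 + (c1 - c0) + (c2 - c0) = c4 := by linarith
      have t5 : c0 + (c1 - c0) + (c3 - c0) = c5 := by linarith
      have t6 : c0 + (c2 - c0) + (c3 - c0) = c6 := by linarith
      exact mem_P d0 (by simpa using d1) (by simpa using d2) (by simpa using d3)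
        (by rw [t4]; exact d4) (by rw [t5]; exact d5) (by rw [t6]; exact d6)
    · simp only [Prod.mk.injEq]
      refine ⟨?_, ?_, ?_, ?_⟩ <;> linarith

/-- growth rate of the spikes -/
noncomputable def th : ℝ := 6677 / 5000

open Classical in
/-- the sparse part of the weight -/
noncomputable def v (n : ℤ) : ℝ := if ∃ d, n ∈ D d then th ^ Nat.log 3 n.toNat else 0

theorem one_le_th : 1 ≤ th := by norm_num [th]

theorem v_nonneg (n : ℤ) : 0 ≤ v n := by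
  have := one_le_th
  unfold v; split_ifs <;> positivity

theorem v_neg {n : ℤ} (h : n < 0) : v n = 0 := by
  unfold v
  rw [if_neg]
  rintro ⟨d, hd⟩
  have := D_bound hd
  omega

theorem v_zero : v 0 = 1 := by
  unfold v
  rw [if_pos ⟨0, zero_mem_D 0⟩]; simp

theorem v_le {n : ℤ} {N : ℕ} (h : n ≤ N) : v n ≤ th ^ Nat.log 3 N := by
  have := one_le_th
  unfold v; split_ifs
  · exact pow_le_pow_right₀ this (Nat.log_mono_right (by omega))
  · positivity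

theorem mem_of_v {n : ℤ} {N : ℕ} (h : n ≤ N) (hv : v n ≠ 0) : n ∈ D (Nat.log 3 N + 1) := by
  unfold v at hv
  split_ifs at hv with h1
  · obtain ⟨d, hd⟩ := h1
    refine D_of_lt hd ?_
    have := Nat.lt_pow_succ_log_self (b := 3) (by norm_num) N
    have h2 : (N : ℤ) < 3 ^ (Nat.log 3 N + 1) := by exact_mod_cast this
    omega
  · exact absurd rfl hv

theorem v_spike {d : ℕ} {t : ℤ} (ht : t ∈ D d) : v (3 ^ d + t) = th ^ d := by
  unfold v
  rw [if_pos ⟨_, pow_add_mem_D ht⟩]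
  congr 1
  have hb := D_bound ht
  have h3 : ((3 ^ d : ℕ) : ℤ) = 3 ^ d := by push_cast; rfl
  rw [Nat.log_eq_iff (by right; constructor <;> [norm_num; omega])]
  rw [pow_succ]
  omega

theorem sum_v (N : ℕ) : ∑ n ∈ Icc (1 : ℤ) N, v n ≤ 2 * (2 * th) ^ Nat.log 3 N := by
  have h1 := one_le_th
  calc ∑ n ∈ Icc (1 : ℤ) N, v n
      = ∑ n ∈ (Icc (1 : ℤ) N).filter (fun n => n ∈ D (Nat.log 3 N + 1)), v n := by
        rw [sum_filter_of_ne]
        intro n hn hv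
        exact mem_of_v (mem_Icc.1 hn).2 hv
    _ ≤ ((Icc (1 : ℤ) N).filter (fun n => n ∈ D (Nat.log 3 N + 1))).card •
          th ^ Nat.log 3 N := by
        apply sum_le_card_nsmul
        intro n hn
        exact v_le (mem_Icc.1 (mem_filter.1 hn).1).2
    _ ≤ 2 * (2 * th) ^ Nat.log 3 N := by
        rw [nsmul_eq_mul, mul_pow, ← mul_assoc]
        refine mul_le_mul_of_nonneg_right ?_ (by positivity)
        have : ((Icc (1 : ℤ) N).filter (fun n => n ∈ D (Nat.log 3 N + 1))).card ≤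
            2 ^ (Nat.log 3 N + 1) :=
          (card_le_card (fun n hn => (mem_filter.1 hn).2)).trans (card_D _)
        rw [pow_succ, mul_comm] at this
        exact_mod_cast this

theorem sum_v_rpow {N : ℕ} (hN : N ≠ 0) :
    ∑ n ∈ Icc (1 : ℤ) N, v n ≤ 2 * (N : ℝ) ^ (9 / 10 : ℝ) := by
  refine (sum_v N).trans (mul_le_mul_of_nonneg_left ?_ (by norm_num))
  have h1 : 2 * th ≤ (3 : ℝ) ^ (9 / 10 : ℝ) := by
    rw [← pow_le_pow_iff_left₀ (n := 10) (by norm_num [th]) (by positivity) (by norm_num),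
      ← Real.rpow_natCast ((3 : ℝ) ^ (9 / 10 : ℝ)), ← Real.rpow_mul (by norm_num)]
    norm_num [th]
  have h2 : ((3 : ℝ) ^ Nat.log 3 N) ≤ N := by exact_mod_cast Nat.pow_log_le_self 3 hN
  calc (2 * th) ^ Nat.log 3 N ≤ ((3 : ℝ) ^ (9 / 10 : ℝ)) ^ Nat.log 3 N :=
        pow_le_pow_left₀ (by norm_num [th]) h1 _
    _ = ((3 : ℝ) ^ Nat.log 3 N) ^ (9 / 10 : ℝ) := by
        rw [← Real.rpow_natCast, ← Real.rpow_mul (by norm_num), mul_comm,
          Real.rpow_mul (by norm_num), Real.rpow_natCast]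
    _ ≤ _ := Real.rpow_le_rpow (by positivity) h2 (by norm_num)

end Pool.Agent.H931Z.Wt
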