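import Mathlib
import Pool.Agent.H931Z.WtComb

set_option autoImplicit false
open Filter Topology Finset

namespace Pool.Agent.H931Z.Wt

/-- the weight -/
noncomputable def w0 (n : ℤ) : ℂ := ((1 + v n : ℝ) : ℂ)

/-- the singular series data: one at integers, zero elsewhere -/
noncomputable def S0 (x : ℚ) : ℂ := if x.den = 1 then 1 else 0

theorem arc_one (n : ℤ) : arc S0 1 n = 1 := by
  simp [arc, S0, e, Finset.filter_singleton]

theorem major_one (n : ℤ) : major S0 1 n = 1 := by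
  simp [major, arc_one]

theorem dyadic_one (n : ℤ) : dyadicMajor S0 1 n = 1 := by
  have h : (range (1 + 1)).filter (fun j => 2 ^ j ≤ 1) = {0} := by decide
  have h2 : (Icc 1 1).filter (fun q => 1 < 2 * q) = {1} := by decide
  simp only [dyadicMajor, h, sum_singleton, pow_zero, wQ, h2, arc_one]

theorem e_norm (x : ℝ) : ‖e x‖ = 1 := by
  have : (2 * Real.pi * Complex.I * x : ℂ) = ((2 * Real.pi * x : ℝ) : ℂ) * Complex.I := by
    push_cast; ring
  rw [e, this, Complex.norm_exp_ofReal_mul_I]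

theorem norm_w0 (n : ℤ) : ‖w0 n‖ = 1 + v n := by
  have := v_nonneg n
  rw [w0, Complex.norm_real, Real.norm_of_nonneg (by positivity)]

theorem sum_v_lin (N : ℕ) : ∑ n ∈ Icc (1 : ℤ) N, v n ≤ 2 * N := by
  rcases Nat.eq_zero_or_pos N with rfl | hN
  · simp
  refine (sum_v_rpow hN.ne').trans (mul_le_mul_of_nonneg_left ?_ (by norm_num))
  have h1 : (1 : ℝ) ≤ N := by exact_mod_cast hN
  simpa using Real.rpow_le_rpow_of_exponent_le h1 (show (9 / 10 : ℝ) ≤ 1 by norm_num)

theorem upper : UpperNormalized w0 := by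
  refine ⟨14, 1, fun L hL a ha => ?_⟩
  have hL' : (1 : ℝ) ≤ L := by exact_mod_cast hL
  have ha' : a + L ≤ ((6 * L : ℕ) : ℤ) := by
    have := (abs_le.1 ha).2
    have h2 : (a : ℝ) + L ≤ ((6 * L : ℕ) : ℝ) := by push_cast; linarith
    exact_mod_cast h2
  have h1 : ∑ n ∈ Ico a (a + L), v n ≤ 1 + 12 * L := by
    calc ∑ n ∈ Ico a (a + L), v n
        = ∑ n ∈ (Ico a (a + L)).filter (fun n => 0 ≤ n), v n := by
          rw [sum_filter_of_ne]
          intro n _ hv
          by_contra hn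
          exact hv (v_neg (by omega))
      _ ≤ ∑ n ∈ insert 0 (Icc (1 : ℤ) ((6 * L : ℕ) : ℤ)), v n := by
          refine sum_le_sum_of_subset_of_nonneg ?_ (fun n _ _ => v_nonneg n)
          intro n hn
          rw [mem_filter, mem_Ico] at hn
          rw [mem_insert, mem_Icc]
          omega
      _ ≤ 1 + 12 * L := by
          rw [sum_insert (by simp), v_zero]
          have := sum_v_lin (6 * L)
          push_cast at this ⊢
          linarith
  simp only [norm_w0, sum_add_distrib, sum_const, Int.card_Ico, add_sub_cancel_left,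
    Int.toNat_natCast, nsmul_eq_mul, mul_one]
  rw [one_div, inv_mul_le_iff₀ (by linarith)]
  linarith

theorem fourier_cond : FourierApprox w0 S0 (fun _ => 1) := by
  refine ⟨2, 1 / 10, by norm_num, ?_⟩
  filter_upwards [eventually_ge_atTop 1] with N hN β
  have hN' : (0 : ℝ) < N := by exact_mod_cast hN
  rw [norm_mul]
  have h1 : ‖∑ n ∈ Icc (1 : ℤ) N, (w0 n - dyadicMajor S0 1 n) * e (-(n * β))‖ ≤
      2 * (N : ℝ) ^ (9 / 10 : ℝ) := by
    refine (norm_sum_le _ _).trans (le_trans (le_of_eq ?_) (sum_v_rpow (by omega)))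
    refine sum_congr rfl fun n _ => ?_
    rw [norm_mul, e_norm, dyadic_one, w0, mul_one]
    push_cast
    rw [add_sub_cancel_left, Complex.norm_real, Real.norm_of_nonneg (v_nonneg n)]
  have h2 : ‖(1 / (N : ℂ))‖ = (N : ℝ) ^ (-1 : ℝ) := by
    rw [Real.rpow_neg_one]; simp
  rw [h2]
  calc (N : ℝ) ^ (-1 : ℝ) * _ ≤ (N : ℝ) ^ (-1 : ℝ) * (2 * (N : ℝ) ^ (9 / 10 : ℝ)) :=
        mul_le_mul_of_nonneg_left h1 (by positivity)
    _ = 2 * (N : ℝ) ^ (-(1 / 10) : ℝ) := by
        rw [mul_left_comm, ← Real.rpow_add hN']; norm_num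

theorem norm_iter_conj (k : ℕ) (z : ℂ) : ‖(starRingEnd ℂ)^[k] z‖ = ‖z‖ := by
  induction k with
  | zero => rfl
  | succ k ih => rw [Function.iterate_succ_apply', Complex.norm_conj, ih]

theorem iter_conj_real (k : ℕ) (r : ℝ) : (starRingEnd ℂ)^[k] (r : ℂ) = r := by
  induction k with
  | zero => rfl
  | succ k ih => rw [Function.iterate_succ_apply', ih, Complex.conj_ofReal]

theorem cube_upper (N : ℕ) :
    ‖cubeSum 3 N (fun n => ((v n : ℝ) : ℂ))‖ ≤ 8 * (8 * th ^ 8) ^ Nat.log 3 N := by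
  classical
  set d := Nat.log 3 N with hd
  have h1 := one_le_th
  rw [cubeSum, ← sum_product']
  refine (norm_sum_le _ _).trans ?_
  set Ω := Icc (1 : ℤ) N ×ˢ Fintype.piFinset (fun _ : Fin 3 => Icc (-(N : ℤ)) N) with hΩ
  let φ : ℤ × (Fin 3 → ℤ) → ℤ × ℤ × ℤ × ℤ := fun z => (z.1, z.2 0, z.2 1, z.2 2)
  have hφ : Function.Injective φ := by
    rintro ⟨x, h⟩ ⟨x', h'⟩ hh
    simp only [φ, Prod.mk.injEq] at hh
    refine Prod.ext hh.1 ?_
    funext i
    fin_cases i
    · exact hh.2.1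
    · exact hh.2.2.1
    · exact hh.2.2.2
  have hb : ∀ z ∈ Ω, ‖∏ ω : Finset (Fin 3), (starRingEnd ℂ)^[ω.card]
      (if z.1 + ∑ i ∈ ω, z.2 i ∈ Icc (1 : ℤ) N then ((v (z.1 + ∑ i ∈ ω, z.2 i) : ℝ) : ℂ) else 0)‖
      ≤ if φ z ∈ Q (d + 1) then (th ^ d) ^ 8 else 0 := by
    intro z _
    rw [norm_prod]
    simp only [norm_iter_conj]
    split_ifs with hq
    · have : (th ^ d) ^ 8 = ∏ _ω : Finset (Fin 3), th ^ d := by simp
      rw [this]
      refine prod_le_prod (fun _ _ => norm_nonneg _) fun ω _ => ?_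
      split_ifs with hm
      · rw [Complex.norm_real, Real.norm_of_nonneg (v_nonneg _)]
        exact v_le (mem_Icc.1 hm).2
      · rw [norm_zero]; positivity
    · apply le_of_eq
      by_contra hne
      apply hq
      have hall : ∀ ω : Finset (Fin 3), z.1 + ∑ i ∈ ω, z.2 i ∈ D (d + 1) := by
        intro ω
        have := (prod_ne_zero_iff.1 hne) ω (mem_univ _)
        split_ifs at this with hm
        · refine mem_of_v (mem_Icc.1 hm).2 ?_
          simpa using this
        · simp at this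
      refine cube_mem_Q (by simpa using hall ∅) (by simpa using hall {0})
        (by simpa using hall {1}) (by simpa using hall {2}) ?_ ?_ ?_ ?_
      · simpa [add_assoc] using hall {0, 1}
      · simpa [add_assoc] using hall {0, 2}
      · simpa [add_assoc] using hall {1, 2}
      · simpa [add_assoc, Fin.sum_univ_three] using hall univ
  refine (sum_le_sum hb).trans ?_
  rw [← sum_filter, sum_const, nsmul_eq_mul]
  have hc : (Ω.filter (fun z => φ z ∈ Q (d + 1))).card ≤ 8 ^ (d + 1) := by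
    refine le_trans (card_le_card_of_injOn φ (fun z hz => ?_) hφ.injOn) (card_Q (d + 1))
    exact (mem_filter.1 hz).2
  have hc' : ((Ω.filter (fun z => φ z ∈ Q (d + 1))).card : ℝ) ≤ 8 ^ (d + 1) := by
    exact_mod_cast hc
  calc _ ≤ (8 : ℝ) ^ (d + 1) * (th ^ d) ^ 8 := mul_le_mul_of_nonneg_right hc' (by positivity)
    _ = _ := by rw [mul_pow, ← pow_mul, ← pow_mul, mul_comm d 8]; ring

theorem cube_lower {N : ℕ} (hN : 4 ≤ N) :
    ((N : ℝ) / 8) ^ 4 ≤ ‖cubeSum 3 N (fun _ => 1)‖ := by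
  classical
  set m := N / 4 with hm
  let g : ℤ × (Fin 3 → ℤ) → ℝ := fun z => ∏ ω : Finset (Fin 3),
    (if z.1 + ∑ i ∈ ω, z.2 i ∈ Icc (1 : ℤ) N then (1 : ℝ) else 0)
  have hg : cubeSum 3 N (fun _ => 1) = ((∑ z ∈ Icc (1 : ℤ) N ×ˢ
      Fintype.piFinset (fun _ : Fin 3 => Icc (-(N : ℤ)) N), g z : ℝ) : ℂ) := by
    rw [cubeSum, ← sum_product']
    push_cast [g]
    refine sum_congr rfl fun z _ => prod_congr rfl fun ω _ => ?_
    split_ifs
    · simpa using iter_conj_real ω.card 1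
    · simpa using iter_conj_real ω.card 0
  have hg0 : ∀ z, 0 ≤ g z := fun z => prod_nonneg fun ω _ => by split_ifs <;> norm_num
  rw [hg, Complex.norm_real, Real.norm_of_nonneg (sum_nonneg fun z _ => hg0 z)]
  have hsub : Icc (1 : ℤ) m ×ˢ Fintype.piFinset (fun _ : Fin 3 => Icc (1 : ℤ) m) ⊆
      Icc (1 : ℤ) N ×ˢ Fintype.piFinset (fun _ : Fin 3 => Icc (-(N : ℤ)) N) := by
    refine product_subset_product (Icc_subset_Icc le_rfl (by omega)) ?_
    exact Fintype.piFinset_subset _ _ fun _ => Icc_subset_Icc (by omega) (by omega)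
  refine le_trans ?_ (sum_le_sum_of_subset_of_nonneg hsub fun z _ _ => hg0 z)
  have hone : ∀ z ∈ Icc (1 : ℤ) m ×ˢ Fintype.piFinset (fun _ : Fin 3 => Icc (1 : ℤ) m),
      g z = 1 := by
    intro z hz
    rw [mem_product, mem_Icc, Fintype.mem_piFinset] at hz
    refine prod_eq_one fun ω _ => if_pos ?_
    have a1 : 0 ≤ ∑ i ∈ ω, z.2 i := sum_nonneg fun i _ => by
      have := (mem_Icc.1 (hz.2 i)).1; omega
    have a2 : ∑ i ∈ ω, z.2 i ≤ ω.card • (m : ℤ) :=
      sum_le_card_nsmul _ _ _ fun i _ => (mem_Icc.1 (hz.2 i)).2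
    have a3 : ω.card ≤ 3 := by simpa using card_le_univ ω
    have a4 : ω.card • (m : ℤ) ≤ 3 * m := by
      rw [nsmul_eq_mul]
      exact mul_le_mul_of_nonneg_right (by exact_mod_cast a3) (by positivity)
    rw [mem_Icc]
    omega
  rw [sum_congr rfl hone, sum_const, card_product, Fintype.card_piFinset]
  simp only [Int.card_Icc, add_sub_cancel_right, Int.toNat_natCast, prod_const, card_univ,
    Fintype.card_fin, nsmul_eq_mul, mul_one]
  have h8 : (N : ℝ) / 8 ≤ m := by
    have : N ≤ 8 * m := by omega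
    have h : (N : ℝ) ≤ 8 * m := by exact_mod_cast this
    linarith
  push_cast
  calc ((N : ℝ) / 8) ^ 4 ≤ (m : ℝ) ^ 4 := pow_le_pow_left₀ (by positivity) h8 4
    _ = _ := by ring

theorem major_arc : MajorArc w0 S0 (fun _ => 1) := by
  set ρ : ℝ := 8 * th ^ 8 / 81 with hρ
  have hρ0 : 0 < ρ := by rw [hρ]; norm_num [th]
  have hρ1 : ρ < 1 := by rw [hρ]; norm_num [th]
  have ht := tendsto_pow_const_mul_const_pow_of_abs_lt_one 5 (r := ρ)
    (by rw [abs_of_pos hρ0]; exact hρ1)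
  obtain ⟨K, hK⟩ := ht.bddAbove_range
  have hK' : ∀ d : ℕ, (d : ℝ) ^ 5 * ρ ^ d ≤ K := fun d => hK ⟨d, rfl⟩
  have hK0 : 0 ≤ K := le_trans (by positivity) (hK' 0)
  set C : ℝ := 1 + 8 ^ 5 * 4 ^ 5 * K with hC
  have hC1 : 1 ≤ C := by rw [hC]; have : (0 : ℝ) ≤ 8 ^ 5 * 4 ^ 5 * K := by positivity
                         linarith
  refine ⟨C, 5, 3, by norm_num, le_rfl, ⟨fun _ => 0, tendsto_const_nhds, fun x => ?_⟩,
    ⟨fun _ => 0, tendsto_const_nhds, Eventually.of_forall fun N => by simp⟩, ?_⟩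
  · unfold S0
    split_ifs with h
    · simp [h, hC1]
    · rw [norm_zero]; positivity
  filter_upwards [eventually_ge_atTop 4] with N hN
  have hF : (fun n => w0 n - major S0 1 n) = fun n => ((v n : ℝ) : ℂ) := by
    funext n; rw [major_one, w0]; push_cast; ring
  rw [hF, gowers]
  set d := Nat.log 3 N with hd
  have hd1 : 1 ≤ d := by
    rw [hd]; exact Nat.le_log_of_pow_le (by norm_num) (by omega)
  have hd1' : (1 : ℝ) ≤ d := by exact_mod_cast hd1
  have hN0 : (0 : ℝ) < N := by positivity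
  have hN1 : (1 : ℝ) < N := by exact_mod_cast (by omega : 1 < N)
  have hlo : (3 : ℝ) ^ d ≤ N := by exact_mod_cast Nat.pow_log_le_self 3 (by omega : N ≠ 0)
  have hhi : (N : ℝ) ≤ 3 ^ (d + 1) := by
    exact_mod_cast (Nat.lt_pow_succ_log_self (b := 3) (by norm_num) N).le
  have hlog0 : 0 < Real.log N := Real.log_pos hN1
  have hlog : Real.log N ≤ 4 * d := by
    have h3 : Real.log 3 ≤ 2 := by
      have := Real.log_le_sub_one_of_pos (show (0 : ℝ) < 3 by norm_num)
      linarith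
    calc Real.log N ≤ Real.log (3 ^ (d + 1)) := Real.log_le_log hN0 hhi
      _ = (d + 1) * Real.log 3 := by rw [Real.log_pow]; push_cast; ring
      _ ≤ (d + 1) * 2 := mul_le_mul_of_nonneg_left h3 (by positivity)
      _ ≤ 4 * d := by linarith
  have hr : ‖cubeSum 3 N (fun n => ((v n : ℝ) : ℂ))‖ / ‖cubeSum 3 N (fun _ => 1)‖ ≤
      C * Real.log N ^ (-5 : ℝ) := by
    have a1 : ((3 : ℝ) ^ d / 8) ^ 4 ≤ ‖cubeSum 3 N (fun _ => 1)‖ :=
      le_trans (pow_le_pow_left₀ (by positivity) (by linarith) 4) (cube_lower hN)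
    have hth := one_le_th
    calc _ ≤ 8 * (8 * th ^ 8) ^ d / ((3 : ℝ) ^ d / 8) ^ 4 :=
          div_le_div₀ (by positivity) (cube_upper N) (by positivity) a1
      _ = 8 ^ 5 * ρ ^ d := by
          have : ((3 : ℝ) ^ d) ^ 4 = 81 ^ d := by
            rw [← pow_mul, mul_comm, pow_mul]; norm_num
          rw [hρ, div_pow, div_pow, this]
          field_simp
      _ ≤ C * Real.log N ^ (-5 : ℝ) := by
          rw [Real.rpow_neg hlog0.le, ← div_eq_mul_inv, le_div_iff₀ (by positivity)]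
          have : Real.log N ^ (5 : ℝ) = Real.log N ^ 5 := by
            exact_mod_cast Real.rpow_natCast (Real.log N) 5
          rw [this]
          have b1 : Real.log N ^ 5 ≤ (4 * d) ^ 5 := pow_le_pow_left₀ hlog0.le hlog 5
          have b2 := hK' d
          calc 8 ^ 5 * ρ ^ d * Real.log N ^ 5 ≤ 8 ^ 5 * ρ ^ d * (4 * d) ^ 5 :=
                mul_le_mul_of_nonneg_left b1 (by positivity)
            _ = 8 ^ 5 * 4 ^ 5 * ((d : ℝ) ^ 5 * ρ ^ d) := by ring
            _ ≤ 8 ^ 5 * 4 ^ 5 * K := mul_le_mul_of_nonneg_left b2 (by positivity)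
            _ ≤ C := by rw [hC]; linarith
  calc _ ≤ (C * Real.log N ^ (-5 : ℝ)) ^ ((1 : ℝ) / 2 ^ 3) :=
        Real.rpow_le_rpow (by positivity) hr (by positivity)
    _ = C ^ ((1 : ℝ) / 2 ^ 3) * Real.log N ^ (-5 / 2 ^ 3 : ℝ) := by
        rw [Real.mul_rpow (by positivity) (by positivity), ← Real.rpow_mul hlog0.le]
        congr 2; ring
    _ ≤ _ := by
        refine mul_le_mul_of_nonneg_right ?_ (by positivity)
        simpa using Real.rpow_le_rpow_of_exponent_le hC1 (show (1 : ℝ) / 2 ^ 3 ≤ 1 by norm_num)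

end Pool.Agent.H931Z.Wt
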