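import Mathlib
import Pool.Agent.H931Z.WtAdm

set_option autoImplicit false
open Filter Topology Finset MeasureTheory ProbabilityTheory
open scoped ENNReal

namespace Pool.Agent.H931Z.Wt

/-- the phase space, a product of cyclic groups -/
abbrev X : Type := ∀ d : ℕ, ZMod (3 ^ d)

instance (d : ℕ) : NeZero (3 ^ d) := ⟨by positivity⟩

/-- uniform measure on a factor -/
noncomputable def un (d : ℕ) : Measure (ZMod (3 ^ d)) := uniformOn Set.univ

instance (d : ℕ) : IsProbabilityMeasure (un d) := by unfold un; infer_instance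

theorem un_apply (d : ℕ) (s : Finset (ZMod (3 ^ d))) : un d s = s.card / 3 ^ d := by
  rw [un, uniformOn_univ, Measure.count_apply_finset, ZMod.card]
  simp

theorem un_map (d : ℕ) (c : ZMod (3 ^ d)) : (un d).map (fun y => y + c) = un d := by
  apply Measure.ext_iff_singleton.2
  intro a
  rw [Measure.map_apply (measurable_of_finite _) (MeasurableSet.singleton _)]
  have : (fun y => y + c) ⁻¹' {a} = (({a - c} : Finset (ZMod (3 ^ d))) : Set _) := by
    ext y; simp only [Set.mem_preimage, Set.mem_singleton_iff, coe_singleton, eq_sub_iff_add_eq]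
  rw [this, un_apply, ← coe_singleton, un_apply]
  simp

/-- product measure -/
noncomputable def μ0 : Measure X := Measure.infinitePi un

instance : IsProbabilityMeasure μ0 := by unfold μ0; infer_instance

theorem meas_add (c : X) : Measurable (fun x : X => x + c) :=
  measurable_pi_lambda _ fun d =>
    (measurable_of_finite (fun y : ZMod (3 ^ d) => y + c d)).comp (measurable_pi_apply d)

theorem pres_add (c : X) : MeasurePreserving (fun x : X => x + c) μ0 μ0 := by
  refine ⟨meas_add c, ?_⟩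
  have := Measure.infinitePi_map_pi un (f := fun d (y : ZMod (3 ^ d)) => y + c d)
    (fun d => measurable_of_finite _)
  simp only [un_map] at this
  exact this

/-- the translation by one -/
def T0 : X ≃ᵐ X where
  toEquiv := Equiv.addRight 1
  measurable_toFun := meas_add 1
  measurable_invFun := meas_add (-1)

theorem T0_iter (n : ℕ) (x : X) : T0^[n] x = x + n := by
  induction n with
  | zero => simp
  | succ n ih =>
    rw [Function.iterate_succ_apply', ih]
    show x + n + 1 = _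
    push_cast; ring

theorem T0_symm_iter (n : ℕ) (x : X) : T0.symm^[n] x = x + (-n) := by
  induction n with
  | zero => simp
  | succ n ih =>
    rw [Function.iterate_succ_apply', ih]
    show x + (-n) + (-1) = _
    push_cast; ring

/-- residues with ternary digits 0 and 2 -/
def A (d : ℕ) : Finset (ZMod (3 ^ d)) := (D d).image fun a => ((2 * a : ℤ) : ZMod (3 ^ d))

/-- growth of the spikes of the functions -/
noncomputable def ka : ℝ := 14999 / 10000

/-- an integrable function with spikes on the Cantor-like sets -/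
noncomputable def F (x : X) : ℝ≥0∞ :=
  ∑' d, ({x : X | x d ∈ A d}).indicator (fun _ => ENNReal.ofReal ka ^ d) x

theorem meas_cyl (d : ℕ) : MeasurableSet {x : X | x d ∈ A d} :=
  (measurable_pi_apply d) (A d).finite_toSet.measurableSet

theorem F_meas : Measurable F :=
  Measurable.tsum fun d => measurable_const.indicator (meas_cyl d)

theorem F_int : ∫⁻ x, F x ∂μ0 < ∞ := by
  unfold F
  rw [lintegral_tsum fun d => (measurable_const.indicator (meas_cyl d)).aemeasurable]
  have h : ∀ d, ∫⁻ x, ({x : X | x d ∈ A d}).indicator (fun _ => ENNReal.ofReal ka ^ d) x ∂μ0 ≤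
      ENNReal.ofReal (ka * 2 / 3) ^ d := by
    intro d
    rw [lintegral_indicator_const (meas_cyl d)]
    have h1 : μ0 {x : X | x d ∈ A d} = un d (A d) :=
      (measurePreserving_eval_infinitePi un d).measure_preimage
        (A d).finite_toSet.measurableSet.nullMeasurableSet
    have h2 : ((A d).card : ℝ≥0∞) ≤ 2 ^ d := by
      exact_mod_cast (card_image_le.trans (card_D d) : (A d).card ≤ 2 ^ d)
    rw [h1, un_apply]
    calc _ ≤ ENNReal.ofReal ka ^ d * (2 ^ d / 3 ^ d) := by gcongr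
      _ = _ := by
        rw [ENNReal.ofReal_div_of_pos (by norm_num), ENNReal.ofReal_mul (by norm_num [ka])]
        simp only [ENNReal.ofReal_ofNat, div_eq_mul_inv, mul_pow, ENNReal.inv_pow, mul_assoc]
  refine lt_of_le_of_lt (ENNReal.tsum_le_tsum h) ?_
  rw [ENNReal.tsum_geometric, lt_top_iff_ne_top, ENNReal.inv_ne_top]
  exact (tsub_pos_of_lt (ENNReal.ofReal_lt_one.2 (by norm_num [ka]))).ne'

/-- the test functions -/
noncomputable def fn (p : ℝ) (x : X) : ℝ := (F x).toReal ^ (1 / p)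

theorem fn_nonneg (p : ℝ) (x : X) : 0 ≤ fn p x := Real.rpow_nonneg ENNReal.toReal_nonneg _

theorem fn_memLp {p : ℝ} (hp : 0 < p) :
    MemLp (fun x => ((fn p x : ℝ) : ℂ)) (ENNReal.ofReal p) μ0 := by
  have hm : Measurable (fn p) := (F_meas.ennreal_toReal).pow_const _
  refine MemLp.ofReal (K := ℂ) (f := fn p) ?_
  have hi : Integrable (fun x => (F x).toReal) μ0 :=
    integrable_toReal_of_lintegral_ne_top F_meas.aemeasurable F_int.ne
  rw [← integrable_norm_rpow_iff hm.aestronglyMeasurable (by simpa using hp) (by simp)]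
  refine hi.congr (ae_of_all _ fun x => ?_)
  simp only
  rw [Real.norm_of_nonneg (fn_nonneg p x), ENNReal.toReal_ofReal hp.le, fn,
    ← Real.rpow_mul ENNReal.toReal_nonneg, one_div_mul_cancel hp.ne', Real.rpow_one]

theorem fn_ge {p : ℝ} (hp : 0 < p) {x : X} (hx : F x ≠ ∞) {d : ℕ} (hd : x d ∈ A d) :
    (ka ^ (1 / p)) ^ d ≤ fn p x := by
  have hk : 0 ≤ ka := by norm_num [ka]
  have h1 : ENNReal.ofReal ka ^ d ≤ F x := by
    refine le_trans (le_of_eq ?_) (ENNReal.le_tsum d)
    rw [Set.indicator_of_mem (show x ∈ {x : X | x d ∈ A d} from hd)]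
  have h2 : ka ^ d ≤ (F x).toReal := by
    have := ENNReal.toReal_mono hx h1
    rwa [ENNReal.toReal_pow, ENNReal.toReal_ofReal hk] at this
  rw [← Real.rpow_natCast, ← Real.rpow_mul hk, mul_comm, Real.rpow_mul hk, Real.rpow_natCast]
  exact Real.rpow_le_rpow (by positivity) h2 (by positivity)

theorem growth {p q : ℝ} (h : 999 / 500 ≤ 1 / p + 1 / q) :
    (3001 / 1000 : ℝ) ≤ th * ka ^ (1 / p) * ka ^ (1 / q) := by
  have hk : (1 : ℝ) ≤ ka := by norm_num [ka]
  have h1 : ka ^ (999 / 500 : ℝ) ≤ ka ^ (1 / p) * ka ^ (1 / q) := by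
    rw [← Real.rpow_add (by linarith)]
    exact Real.rpow_le_rpow_of_exponent_le hk h
  have h2 : ka ^ (1 / 500 : ℝ) ≤ 1 + 1 / 500 * (4999 / 10000) := by
    have := rpow_one_add_le_one_add_mul_self (s := 4999 / 10000) (by norm_num) (p := 1 / 500)
      (by norm_num) (by norm_num)
    have e : ka = 1 + 4999 / 10000 := by norm_num [ka]
    rwa [e]
  have h3 : ka ^ (999 / 500 : ℝ) * ka ^ (1 / 500 : ℝ) = ka ^ 2 := by
    rw [← Real.rpow_add (by linarith), ← Real.rpow_natCast]; norm_num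
  have h4 : 0 ≤ ka ^ (999 / 500 : ℝ) := by positivity
  have h5 : ka ^ 2 ≤ ka ^ (999 / 500 : ℝ) * (1 + 1 / 500 * (4999 / 10000)) := by
    rw [← h3]; exact mul_le_mul_of_nonneg_left h2 h4
  have h6 : ka ^ 2 = 224970001 / 100000000 := by norm_num [ka]
  rw [mul_assoc, th]
  linarith

theorem diverge {p q : ℝ} (hp : 0 < p) (hq : 0 < q) (h : 999 / 500 ≤ 1 / p + 1 / q) :
    ∀ᵐ x ∂μ0, ¬ ∃ l : ℂ, Tendsto (fun N => bilin T0 w0 (fun x => ((fn p x : ℝ) : ℂ))
      (fun x => ((fn q x : ℝ) : ℂ)) N x) atTop (𝓝 l) := by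
  have h0 : ∀ᵐ x ∂μ0, F x ≠ ∞ :=
    (ae_lt_top F_meas F_int.ne).mono fun x hx => hx.ne
  have h1 : ∀ᵐ x ∂μ0, ∀ n : ℕ, F (x + n) ≠ ∞ :=
    ae_all_iff.2 fun n => (pres_add n).quasiMeasurePreserving.ae h0
  have h2 : ∀ᵐ x ∂μ0, ∀ n : ℕ, F (x + (-n)) ≠ ∞ :=
    ae_all_iff.2 fun n => (pres_add (-n)).quasiMeasurePreserving.ae h0
  filter_upwards [h1, h2] with x hx1 hx2
  rintro ⟨l, hl⟩
  obtain ⟨K, hK⟩ := hl.norm.bddAbove_range
  have hlim := tendsto_pow_atTop_atTop_of_one_lt (show (1 : ℝ) < 3001 / 3000 by norm_num)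
  obtain ⟨d, hd⟩ := (hlim.eventually_gt_atTop (2 * K)).exists
  obtain ⟨t, ht, a, ha, b, hb, e1, e2⟩ := midpoint (d := d) (y := ((x d).val : ℤ))
    (by positivity) (by exact_mod_cast ZMod.val_lt (x d))
  have htb := D_bound ht
  obtain ⟨N, hN⟩ : ∃ N : ℕ, (N : ℤ) = 3 ^ d + t := ⟨(3 ^ d + t).toNat, by
    have : (0 : ℤ) < 3 ^ d := by positivity
    omega⟩
  have hNc : ((N : ℕ) : ZMod (3 ^ d)) = ((t : ℤ) : ZMod (3 ^ d)) := by
    have : ((N : ℕ) : ZMod (3 ^ d)) = (((N : ℕ) : ℤ) : ZMod (3 ^ d)) := by simp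
    rw [this, hN]
    have h3 : ((3 ^ d : ℕ) : ZMod (3 ^ d)) = 0 := ZMod.natCast_self _
    push_cast at h3 ⊢
    rw [h3, zero_add]
  have hxv : x d = (((x d).val : ℤ) : ZMod (3 ^ d)) := by simp
  have m1 : (x + N) d ∈ A d := by
    refine mem_image.2 ⟨a, ha, ?_⟩
    rw [← e1, Pi.add_apply, Pi.natCast_apply, hNc]
    push_cast
    simp
  have m2 : (x + (-N)) d ∈ A d := by
    refine mem_image.2 ⟨b, hb, ?_⟩
    rw [← e2, Pi.add_apply, Pi.neg_apply, Pi.natCast_apply, hNc]
    push_cast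
    simp [sub_eq_add_neg]
  have g1 := fn_ge hp (hx1 N) m1
  have g2 := fn_ge hq (hx2 N) m2
  have h3 : (0 : ℤ) < 3 ^ d := by positivity
  have hN1 : 1 ≤ N := by omega
  have hN0 : (0 : ℝ) < N := by exact_mod_cast hN1
  have hN2 : (N : ℝ) ≤ 2 * 3 ^ d := by
    have : (N : ℤ) ≤ 2 * 3 ^ d := by omega
    exact_mod_cast this
  have hb' : bilin T0 w0 (fun x => ((fn p x : ℝ) : ℂ)) (fun x => ((fn q x : ℝ) : ℂ)) N x =
      (((1 / (N : ℝ)) * ∑ n ∈ Icc 1 N, (1 + v (n : ℕ)) * fn p (x + (n : ℕ)) *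
        fn q (x + (-(n : ℕ))) : ℝ) : ℂ) := by
    simp only [bilin, T0_iter, T0_symm_iter, w0]
    push_cast
    rfl
  have hK' := hK ⟨N, rfl⟩
  simp only [hb', Complex.norm_real] at hK'
  replace hK' := (le_abs_self _).trans hK'
  have hs : (1 + v N) * fn p (x + N) * fn q (x + (-N)) ≤
      ∑ n ∈ Icc 1 N, (1 + v (n : ℕ)) * fn p (x + (n : ℕ)) * fn q (x + (-(n : ℕ))) := by
    refine single_le_sum (f := fun n : ℕ => (1 + v (n : ℕ)) * fn p (x + (n : ℕ)) *
      fn q (x + (-(n : ℕ)))) (fun n _ => ?_) (mem_Icc.2 ⟨hN1, le_rfl⟩)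
    have := v_nonneg n
    have := fn_nonneg p (x + n)
    have := fn_nonneg q (x + (-n))
    positivity
  have hv : v N = th ^ d := by rw [hN, v_spike ht]
  have hth := one_le_th
  have hk : 0 ≤ ka := by norm_num [ka]
  have hg : (3001 / 1000 : ℝ) ^ d ≤ (1 + v N) * fn p (x + N) * fn q (x + (-N)) := by
    calc (3001 / 1000 : ℝ) ^ d ≤ (th * ka ^ (1 / p) * ka ^ (1 / q)) ^ d :=
          pow_le_pow_left₀ (by norm_num) (growth h) d
      _ = th ^ d * (ka ^ (1 / p)) ^ d * (ka ^ (1 / q)) ^ d := by rw [mul_pow, mul_pow]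
      _ ≤ _ := by
          have := v_nonneg N
          have := fn_nonneg p (x + N)
          refine mul_le_mul (mul_le_mul (by rw [hv]; linarith) g1 (by positivity) (by positivity))
            g2 (by positivity) (by positivity)
  rw [one_div, inv_mul_le_iff₀ hN0] at hK'
  have hK0 : 0 ≤ K := le_trans (norm_nonneg _) (hK ⟨N, rfl⟩)
  have e3 : (3001 / 1000 : ℝ) ^ d = (3001 / 3000) ^ d * 3 ^ d := by
    rw [← mul_pow]; norm_num
  have h3' : (0 : ℝ) < 3 ^ d := by positivity
  nlinarith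

end Pool.Agent.H931Z.Wt
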